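import Pool.Agent.T9h69.CU.Grow
import Pool.Agent.T9h69.CG.Cent

set_option autoImplicit false
set_option linter.unusedSectionVars false

/-! Frames from undistorted unstable leaves. -/

open Filter Topology Set Metric unitInterval

namespace Pool.Agent.T9h69.CU

open Pool.Agent.H721R2
open Pool.Agent.H789R2.AN Pool.Agent.H789R2.GP Pool.Agent.N234.CP Pool.Agent.Y330.J
open Pool.Agent.T9h69.CF Pool.Agent.T9h69.CG

theorem choose_U {s S U a C : ℝ} (hs : 0 < s) (ha : 0 < a) (h1 : a * (S - s) < 1)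
    (h2 : a * U < 1) {C₁ C₂ C₃ D₃ : ℝ} (hC₁ : 1 ≤ C₁) (hC₂ : 1 ≤ C₂) (hC₃ : 1 ≤ C₃)
    (hD₃ : 1 ≤ D₃) : ∃ A K : ℕ, ∀ N : ℕ, ∃ k n' B : ℕ, n' ≤ A + K * Nat.log 2 (N + 1) ∧ 1 ≤ B ∧
      C₁ * B ≤ Real.exp (s * k) ∧
      a * Real.log (((N + 1) * (2 * (N * ⌊C₃ * Real.exp (S * k)⌋₊ / B + 2) +
        N * ⌊D₃ * Real.exp (U * k)⌋₊ + 3) : ℕ) : ℝ) + C ≤ k ∧
      C₂ * ((N * ⌊C₃ * Real.exp (S * k)⌋₊ : ℕ) : ℝ) ≤ Real.exp (s * n') := by
  set θ := max 0 (max (S - s) U) with hθ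
  have θ0 : 0 ≤ θ := le_max_left _ _
  have θ1 : S - s ≤ θ := (le_max_left _ _).trans (le_max_right _ _)
  have θ2 : U ≤ θ := (le_max_right _ _).trans (le_max_right _ _)
  have haθ : a * θ < 1 := by
    rcases max_cases 0 (max (S - s) U) with ⟨h, -⟩ | ⟨h, -⟩
    · rw [hθ, h]; simp
    · rcases max_cases (S - s) U with ⟨h', -⟩ | ⟨h', -⟩
      · rw [hθ, h, h']; exact h1
      · rw [hθ, h, h']; exact h2
  set τ := 1 - a * θ with hτ
  have τ0 : 0 < τ := by linarith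
  set X := 4 * C₁ * C₃ + D₃ + 7 with hX
  have X1 : 1 ≤ X := by nlinarith
  have lX : 0 ≤ Real.log X := Real.log_nonneg X1
  have lC₁ : 0 ≤ Real.log C₁ := Real.log_nonneg hC₁
  have hCC : 1 ≤ C₂ * C₃ := by nlinarith
  have lC : 0 ≤ Real.log (C₂ * C₃) := Real.log_nonneg hCC
  set α := (a * Real.log X + |C|) / τ + Real.log C₁ / s with hα
  set β := 2 * a / τ with hβ
  have α0 : 0 ≤ α := by positivity
  have β0 : 0 ≤ β := by positivity
  refine ⟨⌈(Real.log (C₂ * C₃) + 1 + |S| * (α + β + 1)) / s + 1⌉₊, ⌈(1 + |S| * β) / s⌉₊,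
    fun N => ?_⟩
  have hN1 : (0 : ℝ) < (N : ℝ) + 1 := by positivity
  have hN0 : (0 : ℝ) ≤ (N : ℝ) := Nat.cast_nonneg _
  set ℓ := Real.log ((N : ℝ) + 1) with hℓ
  have ℓ0 : 0 ≤ ℓ := Real.log_nonneg (by linarith)
  have hℓ2 : ℓ ≤ (Nat.log 2 (N + 1) : ℝ) + 1 := log_succ_le N
  set k := ⌈α + β * ℓ⌉₊ with hk
  have k1 : α + β * ℓ ≤ k := Nat.le_ceil _
  have k2 : (k : ℝ) < α + β * ℓ + 1 := Nat.ceil_lt_add_one (by positivity)
  have kτ : a * Real.log X + |C| + 2 * a * ℓ ≤ τ * k := by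
    have e1 : (a * Real.log X + |C|) / τ + β * ℓ ≤ k := by
      have : 0 ≤ Real.log C₁ / s := by positivity
      linarith
    have e2 : (a * Real.log X + |C|) / τ + β * ℓ = (a * Real.log X + |C| + 2 * a * ℓ) / τ := by
      rw [hβ]; field_simp
    rw [e2, div_le_iff₀ τ0] at e1
    linarith
  have ks : Real.log C₁ ≤ s * k := by
    have e1 : Real.log C₁ / s ≤ k := by
      have : 0 ≤ (a * Real.log X + |C|) / τ := by positivity
      have : 0 ≤ β * ℓ := by positivity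
      linarith
    rw [div_le_iff₀ hs] at e1
    linarith
  set n' := ⌈(Real.log (C₂ * C₃) + ℓ + |S| * k) / s⌉₊ with hn'
  have n1 : (Real.log (C₂ * C₃) + ℓ + |S| * k) / s ≤ n' := Nat.le_ceil _
  have n2 : (n' : ℝ) < (Real.log (C₂ * C₃) + ℓ + |S| * k) / s + 1 :=
    Nat.ceil_lt_add_one (by positivity)
  rw [div_le_iff₀ hs] at n1
  have hC₁0 : 0 < C₁ := by linarith
  have he : C₁ ≤ Real.exp (s * k) := by
    calc C₁ = Real.exp (Real.log C₁) := (Real.exp_log hC₁0).symm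
      _ ≤ _ := Real.exp_le_exp.mpr ks
  set t := Real.exp (s * k) / C₁ with ht
  have ht1 : 1 ≤ t := by rwa [ht, le_div_iff₀ hC₁0, one_mul]
  have hB1 : 1 ≤ ⌊t⌋₊ := Nat.le_floor (by exact_mod_cast ht1)
  have hB0 : (0 : ℝ) < (⌊t⌋₊ : ℝ) := by
    have : (1 : ℝ) ≤ (⌊t⌋₊ : ℝ) := by exact_mod_cast hB1
    linarith
  have hBt : (⌊t⌋₊ : ℝ) ≤ t := Nat.floor_le (by linarith)
  have hBt2 : t ≤ 2 * (⌊t⌋₊ : ℝ) := by
    have a1 : t < ⌊t⌋₊ + 1 := Nat.lt_floor_add_one t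
    have a2 : (1 : ℝ) ≤ (⌊t⌋₊ : ℝ) := by exact_mod_cast hB1
    linarith
  have eθ : 1 ≤ Real.exp (θ * k) := Real.one_le_exp (mul_nonneg θ0 (Nat.cast_nonneg _))
  refine ⟨k, n', ⌊t⌋₊, ?_, hB1, ?_, ?_, ?_⟩
  · -- the bound of `n'`
    have e3 : (n' : ℝ) ≤ (Real.log (C₂ * C₃) + 1 + |S| * (α + β + 1)) / s + 1 +
        (1 + |S| * β) / s * (Nat.log 2 (N + 1) : ℝ) := by
      have e4 : |S| * k ≤ |S| * (α + β * ((Nat.log 2 (N + 1) : ℝ) + 1) + 1) := by
        apply mul_le_mul_of_nonneg_left _ (abs_nonneg _)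
        have : β * ℓ ≤ β * ((Nat.log 2 (N + 1) : ℝ) + 1) := mul_le_mul_of_nonneg_left hℓ2 β0
        linarith
      have e5 : (Real.log (C₂ * C₃) + ℓ + |S| * k) / s ≤ (Real.log (C₂ * C₃) +
          ((Nat.log 2 (N + 1) : ℝ) + 1) +
          |S| * (α + β * ((Nat.log 2 (N + 1) : ℝ) + 1) + 1)) / s :=
        div_le_div_of_nonneg_right (by linarith) hs.le
      have e6 : (Real.log (C₂ * C₃) + ((Nat.log 2 (N + 1) : ℝ) + 1) +
          |S| * (α + β * ((Nat.log 2 (N + 1) : ℝ) + 1) + 1)) / s =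
          (Real.log (C₂ * C₃) + 1 + |S| * (α + β + 1)) / s +
          (1 + |S| * β) / s * (Nat.log 2 (N + 1) : ℝ) := by
        field_simp
        ring
      linarith
    have c1 := Nat.le_ceil ((Real.log (C₂ * C₃) + 1 + |S| * (α + β + 1)) / s + 1)
    have c2 := mul_le_mul_of_nonneg_right (Nat.le_ceil ((1 + |S| * β) / s))
      (Nat.cast_nonneg (α := ℝ) (Nat.log 2 (N + 1)))
    have e7 : (n' : ℝ) ≤ ((⌈(Real.log (C₂ * C₃) + 1 + |S| * (α + β + 1)) / s + 1⌉₊ +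
        ⌈(1 + |S| * β) / s⌉₊ * Nat.log 2 (N + 1) : ℕ) : ℝ) := by
      push_cast
      linarith
    exact_mod_cast e7
  · calc C₁ * (⌊t⌋₊ : ℝ) ≤ C₁ * t := mul_le_mul_of_nonneg_left hBt hC₁0.le
      _ = _ := by rw [ht]; field_simp
  · -- the number of pieces
    have p1 : ((⌊C₃ * Real.exp (S * k)⌋₊ : ℕ) : ℝ) ≤ C₃ * Real.exp (S * k) :=
      Nat.floor_le (by positivity)
    have p2 : ((⌊D₃ * Real.exp (U * k)⌋₊ : ℕ) : ℝ) ≤ D₃ * Real.exp (U * k) :=
      Nat.floor_le (by positivity)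
    have p3 : ((N * ⌊C₃ * Real.exp (S * k)⌋₊ / ⌊t⌋₊ : ℕ) : ℝ) ≤
        2 * C₁ * C₃ * (N * Real.exp (θ * k)) := by
      refine Nat.cast_div_le.trans ?_
      rw [div_le_iff₀ hB0]
      have b1 : Real.exp (S * k) ≤ Real.exp (θ * k) * Real.exp (s * k) := by
        rw [← Real.exp_add]
        apply Real.exp_le_exp.mpr
        have := mul_le_mul_of_nonneg_right θ1 (Nat.cast_nonneg (α := ℝ) k)
        linarith
      have b2 : Real.exp (s * k) = C₁ * t := by rw [ht]; field_simp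
      have b3 : C₁ * t ≤ C₁ * (2 * (⌊t⌋₊ : ℝ)) := mul_le_mul_of_nonneg_left hBt2 hC₁0.le
      calc ((N * ⌊C₃ * Real.exp (S * k)⌋₊ : ℕ) : ℝ) = N * ⌊C₃ * Real.exp (S * k)⌋₊ := by
            push_cast; ring
        _ ≤ N * (C₃ * Real.exp (S * k)) := mul_le_mul_of_nonneg_left p1 hN0
        _ ≤ N * (C₃ * (Real.exp (θ * k) * (C₁ * t))) := by
            rw [b2] at b1
            exact mul_le_mul_of_nonneg_left (mul_le_mul_of_nonneg_left b1 (by linarith)) hN0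
        _ ≤ N * (C₃ * (Real.exp (θ * k) * (C₁ * (2 * (⌊t⌋₊ : ℝ))))) := by
            apply mul_le_mul_of_nonneg_left _ hN0
            apply mul_le_mul_of_nonneg_left _ (by linarith)
            exact mul_le_mul_of_nonneg_left b3 (Real.exp_pos _).le
        _ = _ := by ring
    have p4 : (N : ℝ) * ⌊D₃ * Real.exp (U * k)⌋₊ ≤ D₃ * (N * Real.exp (θ * k)) := by
      have b1 : Real.exp (U * k) ≤ Real.exp (θ * k) := Real.exp_le_exp.mpr
        (mul_le_mul_of_nonneg_right θ2 (Nat.cast_nonneg _))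
      calc (N : ℝ) * ⌊D₃ * Real.exp (U * k)⌋₊ ≤ N * (D₃ * Real.exp (θ * k)) := by
            apply mul_le_mul_of_nonneg_left _ hN0
            exact p2.trans (mul_le_mul_of_nonneg_left b1 (by linarith))
        _ = _ := by ring
    have p5 : (((N + 1) * (2 * (N * ⌊C₃ * Real.exp (S * k)⌋₊ / ⌊t⌋₊ + 2) +
        N * ⌊D₃ * Real.exp (U * k)⌋₊ + 3) : ℕ) : ℝ) ≤
        (N + 1) ^ 2 * (X * Real.exp (θ * k)) := by
      have q1 : (N : ℝ) * Real.exp (θ * k) ≤ (N + 1) * Real.exp (θ * k) :=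
        mul_le_mul_of_nonneg_right (by linarith) (by linarith)
      have q2 : 1 ≤ ((N : ℝ) + 1) * Real.exp (θ * k) := by nlinarith
      have q3 : 0 ≤ 4 * C₁ * C₃ + D₃ := by positivity
      have q4 := mul_le_mul_of_nonneg_left q1 q3
      push_cast
      push_cast at p3
      have q5 : 2 * (((N * ⌊C₃ * Real.exp (S * k)⌋₊ / ⌊t⌋₊ : ℕ) : ℝ) + 2) +
          N * ⌊D₃ * Real.exp (U * k)⌋₊ + 3 ≤ X * ((N + 1) * Real.exp (θ * k)) := by
        have q6 : 2 * ((N * ⌊C₃ * Real.exp (S * k)⌋₊ / ⌊t⌋₊ : ℕ) : ℝ) ≤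
            4 * C₁ * C₃ * (N * Real.exp (θ * k)) := by linarith
        have q7 : X * ((N + 1) * Real.exp (θ * k)) = (4 * C₁ * C₃ + D₃) *
            ((N + 1) * Real.exp (θ * k)) + 7 * ((N + 1) * Real.exp (θ * k)) := by
          rw [hX]; ring
        rw [q7]
        linarith
      calc ((N : ℝ) + 1) * (2 * (((N * ⌊C₃ * Real.exp (S * k)⌋₊ / ⌊t⌋₊ : ℕ) : ℝ) + 2) +
            N * ⌊D₃ * Real.exp (U * k)⌋₊ + 3) ≤ (N + 1) * (X * ((N + 1) * Real.exp (θ * k))) :=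
            mul_le_mul_of_nonneg_left q5 hN1.le
        _ = _ := by ring
    have p6 : (0 : ℝ) < (((N + 1) * (2 * (N * ⌊C₃ * Real.exp (S * k)⌋₊ / ⌊t⌋₊ + 2) +
        N * ⌊D₃ * Real.exp (U * k)⌋₊ + 3) : ℕ) : ℝ) := by
      have : 0 < (N + 1) * (2 * (N * ⌊C₃ * Real.exp (S * k)⌋₊ / ⌊t⌋₊ + 2) +
        N * ⌊D₃ * Real.exp (U * k)⌋₊ + 3) := Nat.mul_pos (by omega) (by omega)
      exact_mod_cast this
    have p7 := Real.log_le_log p6 p5
    rw [Real.log_mul (by positivity) (by positivity), Real.log_mul (by positivity) (by positivity),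
      Real.log_exp, Real.log_pow] at p7
    push_cast at p7
    push_cast
    push_cast at p6
    have p8 := mul_le_mul_of_nonneg_left p7 ha.le
    have p9 : a * (2 * ℓ + (Real.log X + θ * k)) + C ≤ k := by
      have r1 : C ≤ |C| := le_abs_self C
      have r2 : τ * k = k - a * θ * k := by rw [hτ]; ring
      rw [r2] at kτ
      linarith
    exact (add_le_add_left p8 C).trans p9
  · have p1 : ((⌊C₃ * Real.exp (S * k)⌋₊ : ℕ) : ℝ) ≤ C₃ * Real.exp (S * k) :=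
      Nat.floor_le (by positivity)
    calc C₂ * ((N * ⌊C₃ * Real.exp (S * k)⌋₊ : ℕ) : ℝ)
        = C₂ * (N * ⌊C₃ * Real.exp (S * k)⌋₊) := by push_cast; ring
      _ ≤ C₂ * ((N + 1) * (C₃ * Real.exp (S * k))) := by
          apply mul_le_mul_of_nonneg_left _ (by linarith)
          exact mul_le_mul (by linarith) p1 (Nat.cast_nonneg _) hN1.le
      _ = Real.exp (Real.log (C₂ * C₃) + ℓ + S * k) := by
          rw [Real.exp_add, Real.exp_add, Real.exp_log (by positivity), hℓ, Real.exp_log hN1]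
          ring
      _ ≤ _ := Real.exp_le_exp.mpr (by
          have := mul_le_mul_of_nonneg_right (le_abs_self S) (Nat.cast_nonneg (α := ℝ) k)
          linarith)

variable {X : Type*} [MetricSpace X] [CompactSpace X]

/-- stable leaves are undistorted: stable paths which are homotopic to a path with `P` small pieces
become small after `a log P + C` iterations -/
def UDist (g : X ≃ₜ X) (ε₀ a : ℝ) : Prop := ∀ ρ > 0, ∃ C : ℝ, ∀ (P : ℕ) (x y : X)
  (γ κ : Path x y), 1 ≤ P → LPath g γ → γ.Homotopic κ →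
    Pieces {p : X × X | dist p.1 p.2 < ε₀} P κ → ∀ n : ℕ, a * Real.log P + C ≤ n →
      SR g ρ (g^[n] x) (g^[n] y)

theorem lpath_map {g ψ : X ≃ₜ X} {c : ℝ} (hg : LP g c) (hψ : Loc g ψ) {x y : X} {γ : Path x y}
    (h : LPath g γ) : LPath g (γ.map ψ.continuous) := by
  obtain ⟨v, hv⟩ := h.sm
  refine lpath_of_sm hg ⟨fun t => ⟨ψ (v t).val⟩, (Loc.continuous hψ).comp v.continuous⟩ _
    fun t => ?_
  show ψ (γ t) = ψ (v t).val
  rw [hv]

theorem udist_frames {F : X ≃ₜ X} {c : ℝ} (hF : LP F c) (hX : ULC X) {Φ : ℕ → X ≃ₜ X}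
    (hΦ : ∀ k, Fol F (Φ k)) {δ₀ : ℝ} (hδ₀ : 0 < δ₀) (hδc : δ₀ ≤ c) {s S U a ε₀ : ℝ} (hs : 0 < s)
    (ha : 0 < a) (hε₀ : 0 < ε₀) (h1 : a * (S - s) < 1) (h2 : a * U < 1) (r1 : LoRate F δ₀ s)
    (r2 : UDist F.symm ε₀ a) (r3 : UpSeq F (fun k => Φ k) δ₀ S)
    (r4 : UpSeq F.symm (fun k x => F^[k] (Φ k x)) δ₀ U) :
    ∃ (br : X → X → X) (δb η ε₂ δ₁ ρ : ℝ) (A K : ℕ), 0 < ρ ∧
      ∀ N : ℕ, ∃ n' ≤ A + K * Nat.log 2 (N + 1), HU F c br δb η ε₂ δ₁ ρ ε₀ N n' := by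
  have hc := hF.c_pos
  obtain ⟨br, δb, hbr⟩ := exists_BrP hF
  have hδb := hbr.pos
  obtain ⟨δq, hδq, hsq⟩ := squareF hF hX
  obtain ⟨δt, hδt, hst⟩ := steps_unif hF hX
  obtain ⟨η₁, hη₁, hsp⟩ := small_pathF hF hX (ε := ε₀ / 3) (by positivity)
  obtain ⟨η₂, hη₂, hw⟩ := exists_wd hF hX hε₀
  obtain ⟨η₃, hη₃, hw'⟩ := exists_wd hF.symm hX hε₀
  set ε₂ := min (min (c / 3) δq) (min δt η₁) with hε₂
  have e0 : 0 < ε₂ := by positivity
  have e1 : ε₂ ≤ c / 3 := (min_le_left _ _).trans (min_le_left _ _)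
  have e2 : ε₂ ≤ δq := (min_le_left _ _).trans (min_le_right _ _)
  have e3 : ε₂ ≤ δt := (min_le_right _ _).trans (min_le_left _ _)
  have e4 : ε₂ ≤ η₁ := (min_le_right _ _).trans (min_le_right _ _)
  obtain ⟨η', hη', hb2⟩ := hbr.b2 ε₂ e0
  set η := min η' δb with hη
  have n0 : 0 < η := lt_min hη' hδb
  set δ₁ := min ε₂ (min (η / 4) δ₀) with hδ₁
  have d0 : 0 < δ₁ := by positivity
  have d1 : δ₁ ≤ ε₂ := min_le_left _ _
  have d2 : δ₁ ≤ η / 4 := (min_le_right _ _).trans (min_le_left _ _)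
  have d3 : δ₁ ≤ δ₀ := (min_le_right _ _).trans (min_le_right _ _)
  obtain ⟨ηg, hηg, hgap⟩ := qs_SR_of_dist hF δ₁ d0
  set ρ := min δ₁ (min (ηg / 4) η₃) with hρ
  have p0 : 0 < ρ := by positivity
  have p1 : ρ ≤ δ₁ := min_le_left _ _
  have p2 : ρ ≤ ηg / 4 := (min_le_right _ _).trans (min_le_left _ _)
  have p3 : ρ ≤ η₃ := (min_le_right _ _).trans (min_le_right _ _)
  obtain ⟨C₁, hC₁, TA⟩ := r1.fine hF hs hδc hη₂
  obtain ⟨C₂, hC₂, TB⟩ := r1.fine hF hs hδc p0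
  obtain ⟨C₃, hC₃, TC⟩ := r3 ρ p0
  obtain ⟨D₃, hD₃, TD⟩ := r4 ρ p0
  obtain ⟨C, hC⟩ := r2 ρ p0
  obtain ⟨A, K, hAK⟩ := choose_U (C := C) hs ha h1 h2 hC₁ hC₂ hC₃ hD₃
  refine ⟨br, δb, η, ε₂, δ₁, ρ, A, K, p0, fun N => ?_⟩
  obtain ⟨k, n', B, hn', hB1, hB, hP, hT⟩ := hAK N
  have fψ : Fol F ((Φ k).trans (iterHomeo F k)) := (hΦ k).trans' (Fol.iter F k)
  have hψ : ∀ z, ((Φ k).trans (iterHomeo F k)) z = F^[k] (Φ k z) := fun z => rfl
  refine ⟨n', hn', Φ k, (Φ k).trans (iterHomeo F k), ⌊D₃ * Real.exp (U * k)⌋₊,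
    ⌊C₃ * Real.exp (S * k)⌋₊, (N + 1) * (2 * (N * ⌊C₃ * Real.exp (S * k)⌋₊ / B + 2) +
      N * ⌊D₃ * Real.exp (U * k)⌋₊ + 3), N * ⌊C₃ * Real.exp (S * k)⌋₊ / B + 2, ?_, ?_, ?_, ?_,
    le_rfl, ?_, ?_⟩
  · exact {
      hb := hbr
      hε₂ := by linarith
      h12 := d1
      hρ0 := p0
      hρδ := p1
      hε₀ := hε₀
      hη := min_le_right _ _
      hρη := by linarith
      b2 := fun x y hxy => hb2 x y (hxy.trans_le (min_le_left _ _))
      gap := fun x y hxy hd => hgap x y hxy (by linarith)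
      sq := by
        intro a b d e α β β' α' hα hβ hβ' hα' s1 s2 s3 s4
        exact hsq (Φ k) (hΦ k) hα hβ hβ' hα' (s1.mono e2) (s2.mono e2) (s3.mono e2) (s4.mono e2)
      fφ := hΦ k
      fψ := fψ
      UD := by
        rintro x y v ⟨γ, hγ, hγv⟩ ⟨κ, hκ, hκP⟩
        have hhom : γ.Homotopic κ := Path.Homotopic.Quotient.eq.1 (hγv.symm.trans hκ.symm)
        have q1 := lpath_map hF.symm (fψ.flip.loc hF.symm hX) hγ
        have q2 := hC _ _ _ (γ.map (Homeomorph.continuous _)) (κ.map (Homeomorph.continuous _))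
          (Nat.mul_pos (by omega) (by omega)) q1
          (hhom.map ⟨_, ((Φ k).trans (iterHomeo F k)).continuous⟩) hκP k hP
        rw [hψ, hψ, iterL, iterL] at q2
        exact q2
      SW := by
        intro i hi x y s' hst' hs'
        have q1 : Steps F η₂ (i / B + 1) (F^[k] (Φ k x)) (F^[k] (Φ k y)) :=
          Steps.group hB1 (fun M hM u v huv => TA M k u v (le_trans
            (mul_le_mul_of_nonneg_left (by exact_mod_cast hM) (by linarith)) hB) huv)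
            (hst'.mono d3)
        refine (hw _ fψ _ x y s' q1 hs').mono hε₀ ?_
        have := Nat.div_le_div_right (c := B) hi
        omega
      S1 := by
        intro x y s' hxy hs'
        have q1 : SR F η₁ (((Φ k).trans (iterHomeo F k)) x) (((Φ k).trans (iterHomeo F k)) y) := by
          rw [hψ, hψ]
          exact (SR.iter hxy k).mono e4
        obtain ⟨p, hp1, hp2⟩ := hsp _ fψ x y q1
        rw [hs'.unique hX ⟨p, hp1, rfl⟩]
        exact Wd.one p fun r => by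
          have := hp2 r
          linarith }
  · intro x y hxy
    exact TC k x y (hxy.mono (p1.trans d3))
  · intro x y hxy
    exact TD k x y (hxy.mono (p1.trans d3))
  · intro M x y u hst' hu
    exact hw' _ fψ.flip M x y u (hst'.mono p3) hu
  · exact (hΦ k).ua hF hX hst e3
  · intro i hi x y hst'
    exact TB i n' _ _ (le_trans (mul_le_mul_of_nonneg_left (by exact_mod_cast hi) (by linarith))
      hT) (hst'.mono d3)

end Pool.Agent.T9h69.CU
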