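import Pool.Agent.T9h69.CU.Slide

set_option autoImplicit false
set_option linter.unusedSectionVars false

/-! Lifting of unstable paths and polynomial growth, from the control by the length of words. -/

open Filter Topology Set Metric unitInterval
open scoped Pointwise

namespace Pool.Agent.T9h69.CU

open Pool.Agent.H789R2.AN Pool.Agent.H789R2.GP Pool.Agent.N234.CP Pool.Agent.Y330.J
open Pool.Agent.T9h69.CF Pool.Agent.T9h69.CG

variable {X : Type*} [MetricSpace X] [CompactSpace X] {g : X ≃ₜ X} {c : ℝ}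

/-- frames for `N` steps -/
def HU (g : X ≃ₜ X) (c : ℝ) (br : X → X → X) (δb η ε₂ δ₁ ρ ε₀ : ℝ) (N n' : ℕ) : Prop :=
  ∃ (φ ψ : X ≃ₜ X) (J₁ L₁ P W : ℕ),
    UFrm g c br δb η ε₂ δ₁ ρ ε₀ φ ψ P (N * L₁) W ∧
    (∀ x y, SR g ρ x y → ∃ M ≤ L₁, Steps g ρ M (φ x) (φ y)) ∧
    (∀ x y, SR g.symm ρ x y → ∃ M ≤ J₁, Steps g.symm ρ M (ψ x) (ψ y)) ∧
    (∀ (M : ℕ) (x y : X) (u : Path.Homotopic.Quotient x y), Steps g.symm ρ M (ψ x) (ψ y) →
      Scl g.symm u → Wd ψ ε₀ (M + 1) u) ∧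
    (N + 1) * (2 * W + N * J₁ + 3) ≤ P ∧ UA g φ ε₂ ∧
    (∀ i ≤ N * L₁, ∀ x y, Steps g δ₁ i (φ x) (φ y) → SR g ρ (g^[n'] (φ x)) (g^[n'] (φ y)))

theorem steps0 {g : X ≃ₜ X} {δ : ℝ} {i : ℕ} {x y : X} (hi : i ≤ 0) (h : Steps g δ i x y) :
    x = y := by
  obtain rfl : i = 0 := by omega
  obtain ⟨z, z0, z1, -⟩ := h
  rw [← z0, ← z1]

theorem UFrm.frm {br : X → X → X} {δb η ε₂ δ₁ ρ ε₀ : ℝ}
    {φ ψ : X ≃ₜ X} {P Lm W : ℕ} (F : UFrm g c br δb η ε₂ δ₁ ρ ε₀ φ ψ P Lm W) :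
    Frm g c br δb ε₂ ρ η ε₂ φ φ (fun _ => φ) 0 0 0 := by
  have h12 := F.h12
  have hρ0 := F.hρ0
  have hρδ := F.hρδ
  have hρη := F.hρη
  have hε₂ := F.hε₂
  exact {
    hb := F.hb
    hδ₁ := F.hε₂
    hρ0 := F.hρ0
    hρδ := by linarith
    hρη := by linarith
    hη := F.hη
    b2 := F.b2
    gap := fun x y h1 h2 => (F.gap x y h1 h2).mono h12
    CS := fun i hi x y h => by
      rw [steps0 hi h]
      exact qs_SR_refl _ hρ0.le _
    CU := fun i hi x y h => by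
      rw [steps0 hi h]
      exact qs_SR_refl _ hρ0.le _
    hm := by linarith
    mS := fun x y h i _ => h 0
    mU := fun x y h i _ => h 0
    down := fun x y h _ => h.mono (by linarith) }

theorem lf_of_HU (h : LP g c) (hX : ULC X) {br : X → X → X} {δb η ε₂ δ₁ ρ ε₀ : ℝ} (hρ : 0 < ρ)
    (HF : ∀ N : ℕ, ∃ n' : ℕ, HU g c br δb η ε₂ δ₁ ρ ε₀ N n') : ∀ a s, WS g a s → Lf g a s := by
  intro a s has υ hυ
  obtain ⟨v, v0, v1⟩ := leaf_conn h hX a s has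
  obtain ⟨N₁, hN₁⟩ := steps_path v hρ
  obtain ⟨N₂, hN₂⟩ := steps_path υ hρ
  obtain ⟨n', φ, ψ, J₁, L₁, P, W, F, U1, U2, WU, hP, ua, -⟩ := HF (N₁ + N₂)
  have hS : Steps g ρ N₁ a s := by
    have := hN₁ 1
    rwa [v0, v1] at this
  obtain ⟨L, hL, z', z0, zL, hz⟩ := Steps.lift (φ := φ) U1 hS
  have hLm : L ≤ (N₁ + N₂) * L₁ := hL.trans (Nat.mul_le_mul_right _ (by omega))
  have hphi : ∀ y, φ (φ.symm y) = y := φ.apply_symm_apply
  set z : ℕ → X := fun i => φ.symm (z' i) with hzdef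
  have e0 : z 0 = a := by
    show φ.symm (z' 0) = a
    rw [z0, φ.symm_apply_apply]
  have eL : z L = s := by
    show φ.symm (z' L) = s
    rw [zL, φ.symm_apply_apply]
  have hz1 : ∀ i < L, SR g ρ (φ (z i)) (φ (z (i + 1))) := fun i hi => by
    show SR g ρ (φ (φ.symm (z' i))) (φ (φ.symm (z' (i + 1))))
    rw [hphi, hphi]
    exact hz i hi
  have hρδ := F.hρδ
  have h12 := F.h12
  obtain ⟨x, hx⟩ := bottom_lift' h F.frm (F.fφ.flip.loc h.symm hX) (F.fφ.symm'.flip.loc h.symm hX)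
    ua L z υ (by rw [hυ, e0]) hz1 (fun t => by
      obtain ⟨J, hJ, hT⟩ := Steps.lift (φ := ψ) U2 (hN₂ t)
      have hJ1 : J ≤ (N₁ + N₂) * J₁ := hJ.trans (Nat.mul_le_mul_right _ (by omega))
      have epL : z (L - L) = (υ 0).val := by rw [Nat.sub_self, e0, hυ]
      have w1 : WS g.symm (z (L - L)) (υ t).val := by
        rw [epL]; exact WS_of_path h.symm υ 0 t
      obtain ⟨u, hu⟩ := exists_scl h.symm hX w1
      have hw : Wd ψ ε₀ (J + 1) u := WU J _ _ u (by rw [epL]; exact hT) hu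
      have hP' : 1 + (2 * W + (J + 1) + 1) ≤ P := by nlinarith
      have hpp : ∀ l < L, SR g ρ (φ (z (L - l))) (φ (z (L - (l + 1)))) := fun l hl => by
        have := (hz1 (L - (l + 1)) (by omega)).symm'
        rwa [show L - (l + 1) + 1 = L - l by omega] at this
      obtain ⟨q, q0, q1, q2⟩ := slideU h hX F (p := fun l => z (L - l)) (b := fun l => z (L - l))
        (b' := fun l => z (L - (l + 1))) (j := 1) (K := J + 1) hLm hP'
        (fun l hl => (hpp l hl).mono hρδ) hpp (fun l _ => Uc.refl F.hε₀ _)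
        (fun l _ => Uc.refl F.hε₀ _) hu hw
      refine ⟨fun i => q (L - i), ?_, fun i hi => ?_, fun i hi => ?_⟩
      · show q (L - 0) = _
        rw [Nat.sub_zero, q0]
      · have := (q1 (L - (i + 1)) (by omega)).symm'
        rw [show L - (i + 1) + 1 = L - i by omega] at this
        exact this.mono h12
      · obtain ⟨v, hv1, hv2, -⟩ := q2 (L - i) (by omega)
        have := F.UD _ _ v hv1 (hv2.mono F.hε₀ (by omega))
        rwa [show L - (L - i) = i by omega] at this)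
  rw [eL] at hx
  exact ⟨x, hx⟩

/-- the state of the construction -/
def StU (g φ ψ : X ≃ₜ X) (δ₁ ρ ε₀ : ℝ) (j L : ℕ) {x z : X}
    (γ : Path.Homotopic.Quotient x z) : Prop :=
  ∃ (y : X) (p b b' : ℕ → X) (α : Path.Homotopic.Quotient x y) (β : Path.Homotopic.Quotient y z),
    p 0 = y ∧ p L = z ∧ Scl g.symm α ∧ Wd ψ ε₀ j α ∧ Scl g β ∧ γ = α.trans β ∧
    ∀ l < L, SR g δ₁ (φ (p l)) (φ (p (l + 1))) ∧ SR g ρ (φ (b l)) (φ (b' l)) ∧
      Uc g ψ ε₀ j (b l) (p l) ∧ Uc g ψ ε₀ j (b' l) (p (l + 1))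

theorem StU.init (g φ ψ : X ≃ₜ X) (δ₁ ρ : ℝ) {ε₀ : ℝ} (hε : 0 < ε₀) (x : X) :
    StU g φ ψ δ₁ ρ ε₀ 1 0 (Path.Homotopic.Quotient.refl x) :=
  ⟨x, fun _ => x, fun _ => x, fun _ => x, _, _, rfl, rfl, Scl.refl g.symm x, Wd.refl ψ hε x,
    Scl.refl g x, by rw [Path.Homotopic.Quotient.refl_trans],
    fun l hl => absurd hl (Nat.not_lt_zero l)⟩

theorem StU.mono {φ ψ : X ≃ₜ X} {δ₁ ρ ε₀ : ℝ} (hε : 0 < ε₀) {j j' L : ℕ} {x z : X}
    {γ : Path.Homotopic.Quotient x z}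
    (h : StU g φ ψ δ₁ ρ ε₀ j L γ) (hj : j ≤ j') : StU g φ ψ δ₁ ρ ε₀ j' L γ := by
  obtain ⟨y, p, b, b', α, β, h1, h2, h3, h4, h5, h6, h7⟩ := h
  refine ⟨y, p, b, b', α, β, h1, h2, h3, h4.mono hε hj, h5, h6, fun l hl => ?_⟩
  obtain ⟨a1, a2, a3, a4⟩ := h7 l hl
  exact ⟨a1, a2, a3.mono hε hj, a4.mono hε hj⟩

theorem StU.stepS {φ ψ : X ≃ₜ X} {δ₁ ρ ε₀ : ℝ} (hε : 0 < ε₀) (hρ : ρ ≤ δ₁) {j L : ℕ} (hj : 1 ≤ j)
    {x z w : X}
    {γ : Path.Homotopic.Quotient x z} (h : StU g φ ψ δ₁ ρ ε₀ j L γ)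
    {s : Path.Homotopic.Quotient z w} (hs : Scl g s)
    (hzw : SR g ρ (φ z) (φ w)) : StU g φ ψ δ₁ ρ ε₀ j (L + 1) (γ.trans s) := by
  obtain ⟨y, p, b, b', α, β, h1, h2, h3, h4, h5, h6, h7⟩ := h
  refine ⟨y, fun i => if i ≤ L then p i else w, fun i => if i < L then b i else z,
    fun i => if i < L then b' i else w, α, β.trans s, by simp [h1], by simp, h3, h4, h5.trans hs,
    ?_, fun l hl => ?_⟩
  · rw [h6, Path.Homotopic.Quotient.trans_assoc]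
  · beta_reduce
    rcases Nat.lt_or_ge l L with h8 | h8
    · rw [if_pos h8.le, if_pos (by omega : l + 1 ≤ L), if_pos h8, if_pos h8]
      exact h7 l h8
    · obtain rfl : l = L := by omega
      rw [if_pos le_rfl, if_neg (by omega), if_neg (lt_irrefl _), if_neg (lt_irrefl _), h2]
      exact ⟨hzw.mono hρ, hzw, (Uc.refl hε _).mono hε hj, (Uc.refl hε _).mono hε hj⟩

theorem StU.stepU (hg : LP g c) (hX : ULC X) {br : X → X → X} {δb η ε₂ δ₁ ρ ε₀ : ℝ}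
    {φ ψ : X ≃ₜ X} {P Lm W : ℕ} (F : UFrm g c br δb η ε₂ δ₁ ρ ε₀ φ ψ P Lm W) {j L K : ℕ}
    (hL : L ≤ Lm) (hP : j + (2 * W + K + 1) ≤ P) {x z w : X}
    {γ : Path.Homotopic.Quotient x z} (h : StU g φ ψ δ₁ ρ ε₀ j L γ)
    {υ : Path.Homotopic.Quotient z w} (hυ : Scl g.symm υ) (hυ' : Wd ψ ε₀ K υ) :
    StU g φ ψ δ₁ ρ ε₀ (j + (2 * W + K + 1)) L (γ.trans υ) := by
  obtain ⟨y, p, b, b', α, β, h1, h2, h3, h4, h5, h6, h7⟩ := h
  subst h1
  subst h2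
  have hε₀ := F.hε₀
  have h12 := F.h12
  have hε₂ := F.hε₂
  have hρ0 := F.hρ0
  have hρδ := F.hρδ
  obtain ⟨q, q0, q1, q2⟩ := slideU hg hX F hL hP (fun l hl => (h7 l hl).1)
    (fun l hl => (h7 l hl).2.1) (fun l hl => (h7 l hl).2.2.1) (fun l hl => (h7 l hl).2.2.2) hυ hυ'
  have wq : WS g (q 0) w := by
    rw [← q0]
    refine (F.fφ.s _ _).1 (Steps.ws (N := L) hg (by linarith) ⟨fun l => φ (q l), rfl, rfl, q1⟩)
  obtain ⟨s', hs'⟩ := exists_scl hg hX wq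
  obtain ⟨v, v1, v2, v3⟩ := q2 0 (Nat.zero_le _)
  refine ⟨q 0, q, b, b', α.trans v, s', rfl, q0, h3.trans v1, h4.trans v2, hs', ?_,
    fun l hl => ?_⟩
  · rw [h6, Path.Homotopic.Quotient.trans_assoc, v3 β s' h5 hs',
      Path.Homotopic.Quotient.trans_assoc]
  · obtain ⟨v, v1, v2, -⟩ := q2 l hl.le
    obtain ⟨v', v1', v2', -⟩ := q2 (l + 1) hl
    exact ⟨q1 l hl, (h7 l hl).2.1, (h7 l hl).2.2.1.trans ⟨v, v1, v2⟩,
      (h7 l hl).2.2.2.trans ⟨v', v1', v2'⟩⟩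

/-- many stable steps -/
theorem StU.stepsS (hg : LP g c) (hX : ULC X) {φ ψ : X ≃ₜ X} {δ₁ ρ ε₀ : ℝ} (hε : 0 < ε₀)
    (hρδ : ρ ≤ δ₁) (hδc : δ₁ ≤ c) (wφ : Fol g φ) {j L N : ℕ} (hj : 1 ≤ j) {x z w : X}
    {γ : Path.Homotopic.Quotient x z} (h : StU g φ ψ δ₁ ρ ε₀ j L γ)
    {υ : Path.Homotopic.Quotient z w} (hυ : Scl g υ)
    (hzw : Steps g ρ N (φ z) (φ w)) : StU g φ ψ δ₁ ρ ε₀ j (L + N) (γ.trans υ) := by
  obtain ⟨ζ, z0, zN, hz⟩ := hzw
  have hd : ∀ i, φ (φ.symm (ζ i)) = ζ i := fun i => φ.apply_symm_apply _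
  have key : ∀ i ≤ N, ∀ υ' : Path.Homotopic.Quotient z (φ.symm (ζ i)), Scl g υ' →
      StU g φ ψ δ₁ ρ ε₀ j (L + i) (γ.trans υ') := by
    intro i
    induction i with
    | zero =>
      intro _
      have e : φ.symm (ζ 0) = z := by rw [z0, φ.symm_apply_apply]
      rw [e]
      intro υ' hυ'
      rw [hυ'.unique hX (Scl.refl g z), Path.Homotopic.Quotient.trans_refl]
      exact h
    | succ i ih =>
      intro hi υ' hυ'
      have w1 : WS g (φ.symm (ζ i)) (φ.symm (ζ (i + 1))) := by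
        apply (wφ.s _ _).1
        rw [hd, hd]
        exact WS.of_SR (hg.cS _ _ ((hz i (by omega)).mono (by linarith)))
      have w2 : ∀ i ≤ N, WS g z (φ.symm (ζ i)) := by
        intro i hi
        apply (wφ.s _ _).1
        rw [hd, ← z0]
        exact (Steps.of_chain hz hi).ws hg (by linarith)
      obtain ⟨s, hs⟩ := exists_scl hg hX w1
      obtain ⟨s', hs'⟩ := exists_scl hg hX (w2 i (by omega))
      rw [hυ'.unique hX (hs'.trans hs), ← Path.Homotopic.Quotient.trans_assoc, ← Nat.add_assoc]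
      refine (ih (by omega) s' hs').stepS hε hρδ hj hs ?_
      rw [hd, hd]
      exact hz i (by omega)
  have h1 := key N le_rfl
  have e : φ.symm (ζ N) = w := by rw [zN, φ.symm_apply_apply]
  rw [e] at h1
  exact h1 υ hυ

/-- products of generators -/
theorem StU.pow (hg : LP g c) (hX : ULC X) {br : X → X → X} {δb η ε₂ δ₁ ρ ε₀ : ℝ}
    {φ ψ : X ≃ₜ X} {P W N N₀ J₁ L₁ : ℕ} (hN₀ : 1 ≤ N₀)
    (F : UFrm g c br δb η ε₂ δ₁ ρ ε₀ φ ψ P (N * N₀ * L₁) W)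
    (U1 : ∀ x y, SR g ρ x y → ∃ M ≤ L₁, Steps g ρ M (φ x) (φ y))
    (U2 : ∀ x y, SR g.symm ρ x y → ∃ M ≤ J₁, Steps g.symm ρ M (ψ x) (ψ y))
    (WU : ∀ (M : ℕ) (x y : X) (u : Path.Homotopic.Quotient x y), Steps g.symm ρ M (ψ x) (ψ y) →
      Scl g.symm u → Wd ψ ε₀ (M + 1) u)
    (hP : (N * N₀ + 1) * (2 * W + N * N₀ * J₁ + 3) ≤ P)
    {x : X} {S : Set (FundamentalGroup X x)} (hS : ∀ α ∈ S, GenS g ρ N₀ (x := x) α) :
    ∀ i ≤ N, ∀ α ∈ S ^ i, ∃ L ≤ i * (N₀ * L₁),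
      StU g φ ψ δ₁ ρ ε₀ (1 + i * (2 * W + N₀ * J₁ + 2)) L (x := x) (z := x) α := by
  intro i
  induction i with
  | zero =>
    intro _ α hα
    rw [pow_zero, Set.mem_one] at hα
    rw [hα, FundamentalGroup.one_def]
    exact ⟨0, Nat.zero_le _, (StU.init g φ ψ δ₁ ρ F.hε₀ x).mono F.hε₀ (by omega)⟩
  | succ i ih =>
    intro hi α hα
    rw [pow_succ'] at hα
    obtain ⟨γ, hγ, β, hβ, rfl⟩ := Set.mem_mul.1 hα
    rw [FundamentalGroup.mul_def]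
    obtain ⟨L, hL, h1⟩ := ih (by omega) β hβ
    obtain ⟨y, p, q, hp, hq, he, s1, s2⟩ := hS γ hγ
    obtain ⟨M, hM, t1⟩ := Steps.lift_le U2 s1
    obtain ⟨M', hM', t2⟩ := Steps.lift_le U1 s2
    have hn2 : (i + 1) * (N₀ * L₁) ≤ N * N₀ * L₁ := by
      rw [Nat.mul_assoc]; exact Nat.mul_le_mul_right _ hi
    have a2 : (i + 1) * (N₀ * L₁) = i * (N₀ * L₁) + N₀ * L₁ := by ring
    have a3 : (i + 1) * (2 * W + N₀ * J₁ + 2) = i * (2 * W + N₀ * J₁ + 2) +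
        (2 * W + N₀ * J₁ + 2) := by ring
    have a4 : 1 + (i + 1) * (2 * W + N₀ * J₁ + 2) ≤ P := by
      refine le_trans ?_ hP
      have b1 : N ≤ N * N₀ := Nat.le_mul_of_pos_right _ (by omega)
      have b2 : N₀ ≤ N * N₀ := Nat.le_mul_of_pos_left _ (by omega)
      have b3 : N₀ * J₁ ≤ N * N₀ * J₁ := Nat.mul_le_mul_right _ b2
      calc 1 + (i + 1) * (2 * W + N₀ * J₁ + 2) ≤ 1 + (N * N₀) * (2 * W + N * N₀ * J₁ + 2) :=
            Nat.add_le_add_left (Nat.mul_le_mul (by omega) (by omega)) _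
        _ ≤ _ := by nlinarith
    have hw := WU M _ _ p t1 hp
    have h2 := h1.stepU hg hX F (by omega) (K := M + 1) (by omega) hp hw
    have h3 := h2.stepsS hg hX F.hε₀ F.hρδ (by linarith [F.hε₂, F.h12, F.hρ0, F.hρδ]) F.fφ
      (by omega) hq t2
    refine ⟨L + M', by omega, ?_⟩
    have h4 : (β : Path.Homotopic.Quotient x x).trans γ = (β.trans p).trans q := by
      rw [Path.Homotopic.Quotient.trans_assoc, ← he]
    rw [h4]
    exact h3.mono F.hε₀ (by omega)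

/-- **Polynomial growth** of the fundamental group. -/
theorem growth_of_HU (hg : LP g c) (hX : ULC X) (hex : Ex g) {br : X → X → X}
    {δb η ε₂ δ₁ ρ ε₀ : ℝ} (hρ : 0 < ρ) (A K : ℕ)
    (HF : ∀ N : ℕ, ∃ n' ≤ A + K * Nat.log 2 (N + 1), HU g c br δb η ε₂ δ₁ ρ ε₀ N n') :
    ∃ d : ℕ, ∀ (x : X) (S : Set (FundamentalGroup X x)), S.Finite →
      ∃ C : ℕ, ∀ n : ℕ, (S ^ n).ncard ≤ C * (n + 1) ^ d := by
  classical
  have hc := hg.c_pos
  obtain ⟨Q, col, hcol⟩ := exists_col X (η := c) hc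
  refine ⟨Q * K, fun x S hS => ?_⟩
  obtain ⟨N₁, hN₁⟩ := GenS.finite (c := c) hg hX hex hρ hS
  obtain ⟨N₀, hN₀1, hN₀⟩ : ∃ N₀ : ℕ, 1 ≤ N₀ ∧ ∀ α ∈ S, GenS g ρ N₀ (x := x) α := by
    refine ⟨N₁ + 1, by omega, fun α hα => ?_⟩
    obtain ⟨y, p, q, h1, h2, h3, ⟨M, h4, h5⟩, M', h6, h7⟩ := hN₁ α hα
    exact ⟨y, p, q, h1, h2, h3, ⟨M, by omega, h5⟩, M', by omega, h7⟩
  refine ⟨(2 ^ Q) ^ (A + 1 + K * (Nat.log 2 (N₀ + 1) + 1)), fun N => ?_⟩
  obtain ⟨n', hn, φ, ψ, J₁, L₁, P, W, F, U1, U2, WU, hP, -, T⟩ := HF (N * N₀)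
  have hne : Nonempty X := ⟨x⟩
  have hε₂ := F.hε₂
  have h12 := F.h12
  have hρδ := F.hρδ
  have hpow := StU.pow hg hX hN₀1 F U1 U2 WU hP hN₀ N le_rfl
  have hC' : ∀ α ∈ S ^ N, ∃ y : X, ∃ (p : Path.Homotopic.Quotient x y)
      (q : Path.Homotopic.Quotient y x), Scl g.symm p ∧ Scl g q ∧ α = p.trans q ∧
      SR g.symm ρ (φ x) (φ y) ∧ SR g ρ (g^[n'] (φ y)) (g^[n'] (φ x)) := by
    intro α hα
    obtain ⟨L, hL, y, p, b, b', α', β', h5, h6, h7, h8, h9, h10, h11⟩ := hpow α hα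
    subst h5
    refine ⟨p 0, α', β', h7, h9, h10, ?_, ?_⟩
    · refine F.UD _ _ α' h7 (h8.mono F.hε₀ (le_trans ?_ hP))
      have b2 : N * N₀ * J₁ = N * (N₀ * J₁) := by ring
      rcases Nat.eq_zero_or_pos N with rfl | hN0
      · simp
      · have b3 : N₀ * J₁ ≤ N * (N₀ * J₁) := Nat.le_mul_of_pos_left _ hN0
        have b1 : N ≤ N * N₀ := Nat.le_mul_of_pos_right _ (by omega)
        calc 1 + N * (2 * W + N₀ * J₁ + 2) ≤ 1 + (N * N₀) * (2 * W + N * N₀ * J₁ + 2) :=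
              Nat.add_le_add_left (Nat.mul_le_mul b1 (by omega)) _
          _ ≤ _ := by nlinarith
    · refine T L (by rw [Nat.mul_assoc]; exact hL) _ _ ?_
      rw [← h6]
      exact ⟨fun t => φ (p t), rfl, rfl, fun t ht => (h11 t ht).1⟩
  choose! y hy using hC'
  have hinj : Set.InjOn (fun α => fun m : Fin (n' + 1) => col (g^[(m : ℕ)] (φ (y α)))) (S ^ N) := by
    intro α hα β hβ hab
    obtain ⟨p, r, p1, r1, e1, u1, s1⟩ := hy α hα
    obtain ⟨p', r', p2, r2, e2, u2, s2⟩ := hy β hβ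
    have h1 : y α = y β := by
      apply φ.injective
      refine expansive hg ?_ ?_
      · intro t
        rcases Nat.lt_or_ge t (n' + 1) with ht | ht
        · exact hcol _ _ (congrFun hab ⟨t, ht⟩)
        · have := (qs_SR_add s1 s2.symm') (t - n')
          rw [← Function.iterate_add_apply, ← Function.iterate_add_apply,
            Nat.sub_add_cancel (by omega)] at this
          exact this.trans (by linarith)
      · exact (qs_SR_add u1.symm' u2).mono (by linarith [F.hρ0])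
    rw [e1, e2]
    clear e1 e2 hab hα hβ
    generalize y β = yb at *
    subst h1
    rw [p1.unique hX p2, r1.unique hX r2]
  have hcard : (S ^ N).ncard ≤ (Q + 1) ^ (n' + 1) := by
    have h1 := Set.ncard_le_ncard_of_injOn _ (t := (Set.univ : Set (Fin (n' + 1) → Fin (Q + 1))))
      (fun α _ => mem_univ _) hinj
    rwa [Set.ncard_univ, Nat.card_eq_fintype_card, Fintype.card_fun, Fintype.card_fin,
      Fintype.card_fin] at h1
  have hQ2 : (Q + 1) ^ (n' + 1) ≤ (2 ^ Q) ^ (n' + 1) :=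
    Nat.pow_le_pow_left Nat.lt_two_pow_self _
  have hn2 : n' + 1 ≤ (A + 1 + K * (Nat.log 2 (N₀ + 1) + 1)) + K * Nat.log 2 (N + 1) := by
    have a1 : Nat.log 2 (N * N₀ + 1) ≤ Nat.log 2 ((N + 1) * (N₀ + 1)) :=
      Nat.log_mono_right (by nlinarith)
    have a2 := log_mul_le (N + 1) (N₀ + 1)
    have a3 : K * Nat.log 2 (N * N₀ + 1) ≤
        K * (Nat.log 2 (N + 1) + Nat.log 2 (N₀ + 1) + 1) := Nat.mul_le_mul_left _ (by omega)
    have a4 : K * (Nat.log 2 (N + 1) + Nat.log 2 (N₀ + 1) + 1) =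
        K * (Nat.log 2 (N₀ + 1) + 1) + K * Nat.log 2 (N + 1) := by ring
    omega
  have h3 : (2 ^ Q) ^ (n' + 1) ≤ (2 ^ Q) ^ ((A + 1 + K * (Nat.log 2 (N₀ + 1) + 1)) +
      K * Nat.log 2 (N + 1)) :=
    Nat.pow_le_pow_right (by positivity) hn2
  have h4 : (2 ^ Q) ^ (K * Nat.log 2 (N + 1)) ≤ (N + 1) ^ (Q * K) := by
    calc (2 ^ Q) ^ (K * Nat.log 2 (N + 1)) = (2 ^ Nat.log 2 (N + 1)) ^ (Q * K) := by
          rw [← pow_mul, ← pow_mul]
          congr 1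
          ring
      _ ≤ _ := Nat.pow_le_pow_left (Nat.pow_log_le_self 2 (by omega)) _
  refine hcard.trans (hQ2.trans (h3.trans ?_))
  rw [pow_add]
  exact Nat.mul_le_mul_left _ h4

end Pool.Agent.T9h69.CU
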