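import Pool.Agent.T9h69.CU.Fr
import Pool.Agent.T9h69.CG.Main

set_option autoImplicit false
set_option linter.unusedSectionVars false

/-! Anosov diffeomorphisms with undistorted unstable leaves: final assembly. -/

open Filter Topology Set Metric
open scoped Manifold ContDiff Pointwise

namespace Pool.Agent.T9h69.CU

open Pool.Agent.H721R2 Pool.Agent.H789R2.AN Pool.Agent.H789R2.GP Pool.Agent.Y330.J
open Pool.Agent.TH289.K (GPS StablePath)
open Pool.Agent.TH289 (Asym)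
open Pool.Agent.N234.CP
open Pool.Agent.T9h69.CF Pool.Agent.T9h69.CG

universe u v w

/-- The stable leaves of `f` are undistorted, with the constant `a`: for some neighbourhood `𝒰₀` of
the diagonal and every neighbourhood `𝒰` of the diagonal there is a constant `C` such that, if `γ` is
a path in a stable leaf which is homotopic, with fixed end points, to a path with `N` pieces which are
`𝒰₀`-small, then the end points of `γ` are `𝒰`-close after all iterations `n ≥ a log N + C`. -/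
def Undistorted {M : Type*} [TopologicalSpace M] (f : M ≃ₜ M) (a : ℝ) : Prop :=
  ∃ 𝒰₀ ∈ 𝓝ˢ (diagonal M), ∀ 𝒰 ∈ 𝓝ˢ (diagonal M), ∃ C : ℝ, ∀ (N : ℕ) (x y : M)
    (γ κ : Path x y), 1 ≤ N → StablePath f γ → γ.Homotopic κ → Pieces 𝒰₀ N κ →
      ∀ n : ℕ, a * Real.log N + C ≤ n → StableClose f 𝒰 (f^[n] x) (f^[n] y)

section metric

variable {X : Type*} [MetricSpace X] [CompactSpace X]

theorem stablePath_of_lpath {f : X ≃ₜ X} {m : ℕ} (hm : 1 ≤ m) {x y : X} {γ : Path x y}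
    (h : LPath (iterHomeo f m) γ) : StablePath f γ := by
  intro 𝒰 h𝒰
  obtain ⟨ε, hε, h1⟩ := diag_mem.1 h𝒰
  obtain ⟨δ, hδ, h2⟩ := T1_unif f m hε
  obtain ⟨N, hN⟩ := h (δ / 2) (half_pos hδ)
  filter_upwards [eventually_ge_atTop (m * N)] with n hn t
  apply h1
  have hk : n = n % m + m * (n / m) := (Nat.mod_add_div n m).symm
  have hq : N ≤ n / m := by
    rw [Nat.le_div_iff_mul_le (by omega), Nat.mul_comm]
    exact hn
  rw [hk, Function.iterate_add_apply, Function.iterate_add_apply, ← iterHomeo_iter,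
    ← iterHomeo_iter]
  refine h2 _ (Nat.mod_lt _ (by omega)).le _ _ (lt_of_le_of_lt ?_ (half_lt_self hδ))
  have := hN (n / m) hq t
  have e : (γ : C(unitInterval, X)) 0 = x := γ.source
  rw [e]
  exact this

theorem Undistorted.udist {f : X ≃ₜ X} {a : ℝ} (h : Undistorted f a) {m : ℕ} (hm : 1 ≤ m) :
    ∃ ε₀ > 0, UDist (iterHomeo f m) ε₀ (a / m) := by
  obtain ⟨𝒰₀, h𝒰₀, h1⟩ := h
  obtain ⟨ε₀, hε₀, h2⟩ := diag_mem.1 h𝒰₀
  have hm0 : (0 : ℝ) < m := by exact_mod_cast hm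
  refine ⟨ε₀, hε₀, fun ρ hρ => ?_⟩
  obtain ⟨C, hC⟩ := h1 {p | dist p.1 p.2 < ρ} (diag_mem.2 ⟨ρ, hρ, fun x y h => h⟩)
  refine ⟨C / m, fun P x y γ κ hP hγ hh hκ n hn => ?_⟩
  have h3 := hC P x y γ κ hP (stablePath_of_lpath hm hγ) hh
    (hκ.sub fun r r' h => h2 _ _ h) (m * n) (by
      have e : a / m * Real.log P + C / m = (a * Real.log P + C) / m := by ring
      rw [e, div_le_iff₀ hm0] at hn
      push_cast
      linarith)
  rw [iterHomeo_iter, iterHomeo_iter]
  exact SR_of_close f m (fun p hp => le_of_lt hp) h3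

theorem upSeq_pow {F : X ≃ₜ X} {c : ℝ} (hF : LP F c) {δ S : ℝ} (hδ : δ ≤ c)
    (h : UpRate F δ S) : UpSeq F (fun k x => F.symm^[k] x) δ S := by
  intro ρ hρ
  obtain ⟨C, hC, h1⟩ := h.fine hF hδ hρ
  refine ⟨C, hC, fun k x y hxy => ?_⟩
  obtain ⟨N, hN, h2⟩ := h1 x y hxy k
  exact ⟨N, Nat.le_floor hN, h2⟩

theorem upSeq_theta {F : X ≃ₜ X} {c : ℝ} (hF : LP F c) {δ S θ : ℝ} (hδ : δ ≤ c) (hS : 0 ≤ S)
    (h : UpRate F δ S) {m : ℕ → ℕ} (hm : ∀ k, (m k : ℝ) ≤ θ * k + 1) :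
    UpSeq F (fun k x => F.symm^[m k] x) δ (θ * S) := by
  intro ρ hρ
  obtain ⟨C, hC, h1⟩ := h.fine hF hδ hρ
  refine ⟨C * Real.exp S, one_le_mul_of_one_le_of_one_le hC (Real.one_le_exp hS),
    fun k x y hxy => ?_⟩
  obtain ⟨N, hN, h2⟩ := h1 x y hxy (m k)
  refine ⟨N, Nat.le_floor (hN.trans ?_), h2⟩
  rw [mul_assoc, ← Real.exp_add]
  apply mul_le_mul_of_nonneg_left _ (by linarith)
  apply Real.exp_le_exp.mpr
  have := mul_le_mul_of_nonneg_left (hm k) hS
  linarith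

theorem upSeq_id {F : X ≃ₜ X} {c : ℝ} (hF : LP F c) (hX : ULC X) : ∃ δ₀ > 0, ∀ δ ≤ δ₀,
    UpSeq F (fun _ x => x) δ 0 := by
  obtain ⟨δ₀, hδ₀, h1⟩ := steps_unif hF hX
  refine ⟨δ₀, hδ₀, fun δ hδ ρ hρ => ?_⟩
  obtain ⟨M, hM⟩ := h1 ρ hρ
  refine ⟨max 1 M, le_max_left _ _, fun k x y hxy => ?_⟩
  obtain ⟨N, hN, h2⟩ := hM x y (hxy.mono hδ)
  refine ⟨N, Nat.le_floor ?_, h2⟩
  rw [zero_mul, Real.exp_zero, mul_one]
  have : (N : ℝ) ≤ M := by exact_mod_cast hN
  exact this.trans (le_max_right _ _)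

end metric

section manifold

variable {E : Type u} [NormedAddCommGroup E] [NormedSpace ℝ E] [FiniteDimensional ℝ E]
  {M : Type v} [TopologicalSpace M] [T2Space M] [CompactSpace M] [ConnectedSpace M]
  [ChartedSpace E M] [IsManifold 𝓘(ℝ, E) ∞ M]

/-- The three forms of the hypothesis on the stable leaves. -/
def Slow (f : M ≃ₜ M) (a s : ℝ) : Prop :=
  (∃ S : ℝ, CoarseExpands f S ∧ a * (S - s) < 1) ∨
  (∃ S U : ℝ, 0 < S ∧ 0 < U ∧ CoarseExpands f S ∧ CoarseExpands f.symm U ∧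
    a * U * (S - s) < S + U) ∨
  ∃ (φ : ℕ → M ≃ₜ M) (S U : ℝ), (∀ k x y, Asym f (φ k x) (φ k y) ↔ Asym f x y) ∧
    (∀ k x y, Asym f.symm (φ k x) (φ k y) ↔ Asym f.symm x y) ∧
    ExpandsBy f (fun k => φ k) S ∧ ExpandsBy f.symm (fun k x => f^[k] (φ k x)) U ∧
    a * (S - s) < 1 ∧ a * U < 1

/-- The theorem for undistorted unstable leaves. -/
theorem undist_main (f : Diffeomorph 𝓘(ℝ, E) 𝓘(ℝ, E) M M 1)
    (Es Eu : ∀ x : M, Submodule ℝ (TangentSpace 𝓘(ℝ, E) x)) (hA : IsAnosov f Es Eu)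
    (a s : ℝ) (ha : 0 < a) (hs : 0 < s) (h1 : CoarseContracts f s)
    (h2 : Undistorted f.toHomeomorph.symm a) (h3 : Slow f.toHomeomorph a s) :
    TopTransitive f ∧ Dense (Function.periodicPts f) ∧ GPS f.toHomeomorph ∧
      (∃ q : E → M, IsCoveringMap q ∧ Function.Surjective q) ∧
      ∃ d : ℕ, ∀ (x : M) (S : Set (FundamentalGroup M x)), S.Finite →
        ∃ C : ℕ, ∀ n : ℕ, (S ^ n).ncard ≤ C * (n + 1) ^ d := by
  obtain ⟨m, e, he, hemb, hinj⟩ := exists_embedding_euclidean_of_compact (I := 𝓘(ℝ, E)) (M := M)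
  let _ : MetricSpace M := hemb.isEmbedding.comapMetricSpace e
  have hiso : ∀ x y : M, dist x y = ‖e x - e y‖ := fun x y => dist_eq_norm (e x) (e y)
  have he1 : ContMDiff 𝓘(ℝ, E) (𝓡 m) 1 e := he.of_le (by simp)
  obtain ⟨C, r₁, r₂, Ls, Lu, hE⟩ := eanosov_of_isAnosov e he1 hinj f Es Eu hA
  obtain ⟨n, Sy, hn1, hg, -, -, -, -, -⟩ := exists_sys hiso he1 hinj hE
    (a' := 1) (b' := 1) hE.a_lt hE.b_lt
  obtain ⟨c, hLP⟩ := exists_LP Sy
  have hc := hLP.c_pos
  have hn0 : (0 : ℝ) < n := by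
    have : (1 : ℝ) ≤ n := by exact_mod_cast hn1
    linarith
  have hsym : (iterHomeo f.toHomeomorph n).symm = iterHomeo f.toHomeomorph.symm n := rfl
  have hX : ULC M := ulc_of_charted (X := M) (E := E)
  obtain ⟨δ₁, hδ₁, R1⟩ := CoarseContracts.loRate (f := f.toHomeomorph) h1 hn1
  obtain ⟨ε₀, hε₀, R2⟩ := Undistorted.udist h2 hn1
  rw [← hsym] at R2
  rw [← hg] at R1 R2
  have han : 0 < a / n := div_pos ha hn0
  have hsn : 0 < s * n := mul_pos hs hn0
  have fin : ∃ (br : M → M → M) (δb η ε₂ δ₁ ρ : ℝ) (A K : ℕ), 0 < ρ ∧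
      ∀ N : ℕ, ∃ n' ≤ A + K * Nat.log 2 (N + 1), HU Sy.g c br δb η ε₂ δ₁ ρ ε₀ N n' := by
    rcases h3 with ⟨S, h4, h5⟩ | ⟨S, U, hS, hU, h4, h4', h5⟩ | ⟨φ, S, U, hφs, hφu, h4, h4', h5, h6⟩
    · obtain ⟨δ₂, hδ₂, R3⟩ := h4.upRate hn1
      obtain ⟨δ₃, hδ₃, R4⟩ := upSeq_id hLP.symm hX
      rw [← hg] at R3
      set δ := min (min δ₁ δ₂) (min δ₃ c) with hδ
      have d0 : 0 < δ := by positivity
      have d1 : δ ≤ δ₁ := (min_le_left _ _).trans (min_le_left _ _)
      have d2 : δ ≤ δ₂ := (min_le_left _ _).trans (min_le_right _ _)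
      have d3 : δ ≤ δ₃ := (min_le_right _ _).trans (min_le_left _ _)
      have d4 : δ ≤ c := (min_le_right _ _).trans (min_le_right _ _)
      refine udist_frames (Φ := fun k => (iterHomeo Sy.g k).symm) hLP hX
        (fun k => (Fol.iter Sy.g k).symm') d0 d4 (s := s * n) (S := S * n) (U := 0) hsn han hε₀
        ?_ (by simp) (R1 δ d0 d1) R2 (upSeq_pow hLP d4 (R3 δ d0 d2)) ?_
      · have : a / n * (S * n - s * n) = a * (S - s) := by field_simp
        rw [this]; exact h5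
      · have e1 : (fun (k : ℕ) (x : M) => Sy.g^[k] ((iterHomeo Sy.g k).symm x)) =
            fun _ x => x := by
          funext k x
          exact iterR Sy.g k x
        rw [e1]
        exact R4 δ d3
    · obtain ⟨δ₂, hδ₂, R3⟩ := h4.upRate hn1
      obtain ⟨δ₃, hδ₃, R4⟩ := h4'.upRate hn1
      rw [← hsym] at R4
      rw [← hg] at R3 R4
      set δ := min (min δ₁ δ₂) (min δ₃ c) with hδ
      have d0 : 0 < δ := by positivity
      have d1 : δ ≤ δ₁ := (min_le_left _ _).trans (min_le_left _ _)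
      have d2 : δ ≤ δ₂ := (min_le_left _ _).trans (min_le_right _ _)
      have d3 : δ ≤ δ₃ := (min_le_right _ _).trans (min_le_left _ _)
      have d4 : δ ≤ c := (min_le_right _ _).trans (min_le_right _ _)
      -- the choice of `θ`
      obtain ⟨θ, t0, t1, t2, t3⟩ : ∃ θ : ℝ, 0 ≤ θ ∧ θ ≤ 1 ∧ a * (θ * S - s) < 1 ∧
          a * ((1 - θ) * U) < 1 := by
        have q1 : 1 - 1 / (a * U) < (s + 1 / a) / S := by
          rw [lt_div_iff₀ hS]
          have e1 : (1 - 1 / (a * U)) * S = (a * U * S - S) / (a * U) := by field_simp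
          have e2 : s + 1 / a = (s * a * U + U) / (a * U) := by field_simp
          rw [e1, e2]
          apply div_lt_div_of_pos_right _ (by positivity)
          linarith
        have q2 : 0 < (s + 1 / a) / S := by positivity
        have q3 : 1 - 1 / (a * U) < 1 := by
          have : 0 < 1 / (a * U) := by positivity
          linarith
        obtain ⟨θ, k1, k2⟩ := exists_between (a₁ := max 0 (1 - 1 / (a * U)))
          (a₂ := min 1 ((s + 1 / a) / S)) (max_lt (lt_min one_pos q2) (lt_min q3 q1))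
        refine ⟨θ, (le_max_left _ _).trans k1.le, k2.le.trans (min_le_left _ _), ?_, ?_⟩
        · have k3 : θ < (s + 1 / a) / S := k2.trans_le (min_le_right _ _)
          rw [lt_div_iff₀ hS] at k3
          have k4 := mul_lt_mul_of_pos_left k3 ha
          have k5 : a * (s + 1 / a) = a * s + 1 := by field_simp
          rw [k5] at k4
          linarith
        · have k3 : 1 - 1 / (a * U) < θ := (le_max_right _ _).trans_lt k1
          have k4 : (1 - θ) < 1 / (a * U) := by linarith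
          rw [lt_div_iff₀ (by positivity)] at k4
          linarith
      have hfl : ∀ k : ℕ, ⌊θ * (k : ℝ)⌋₊ ≤ k := fun k => by
        apply Nat.floor_le_of_le
        have := mul_le_mul_of_nonneg_right t1 (Nat.cast_nonneg (α := ℝ) k)
        linarith
      refine udist_frames (Φ := fun k => (iterHomeo Sy.g ⌊θ * (k : ℝ)⌋₊).symm) hLP hX
        (fun k => (Fol.iter Sy.g _).symm') d0 d4 (s := s * n) (S := θ * (S * n))
        (U := (1 - θ) * (U * n)) hsn han hε₀ ?_ ?_ (R1 δ d0 d1) R2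
        (upSeq_theta (θ := θ) (m := fun k => ⌊θ * (k : ℝ)⌋₊) hLP d4 (by positivity)
          (R3 δ d0 d2) fun k => ?_) ?_
      · have : a / n * (θ * (S * n) - s * n) = a * (θ * S - s) := by field_simp
        rw [this]; exact t2
      · have : a / n * ((1 - θ) * (U * n)) = a * ((1 - θ) * U) := by field_simp
        rw [this]; exact t3
      · have : ((⌊θ * (k : ℝ)⌋₊ : ℕ) : ℝ) ≤ θ * k := Nat.floor_le (by positivity)
        linarith
      · have e1 : (fun (k : ℕ) (x : M) => Sy.g^[k] ((iterHomeo Sy.g ⌊θ * (k : ℝ)⌋₊).symm x)) =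
            fun (k : ℕ) (x : M) => Sy.g.symm.symm^[(k - ⌊θ * (k : ℝ)⌋₊ : ℕ)] x := by
          funext k x
          show Sy.g^[k] (Sy.g.symm^[⌊θ * (k : ℝ)⌋₊] x) = Sy.g^[k - ⌊θ * (k : ℝ)⌋₊] x
          exact T1_iter_add Sy.g (hfl k) x
        rw [e1]
        refine upSeq_theta (θ := 1 - θ) (m := fun k : ℕ => (k - ⌊θ * (k : ℝ)⌋₊ : ℕ)) hLP.symm d4
          (by positivity) (R4 δ d0 d3) fun k => ?_
        rw [Nat.cast_sub (hfl k)]
        have := Nat.lt_floor_add_one (θ * (k : ℝ))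
        linarith
    · obtain ⟨δ₂, hδ₂, R3⟩ := ExpandsBy.upSeq (f := f.toHomeomorph) h4 hn1
      obtain ⟨δ₃, hδ₃, R4⟩ := ExpandsBy.upSeq (f := f.toHomeomorph.symm) h4' hn1
      rw [← hsym] at R4
      rw [← hg] at R3 R4
      set δ := min (min δ₁ δ₂) (min δ₃ c) with hδ
      have d0 : 0 < δ := by positivity
      have d1 : δ ≤ δ₁ := (min_le_left _ _).trans (min_le_left _ _)
      have d2 : δ ≤ δ₂ := (min_le_left _ _).trans (min_le_right _ _)
      have d3 : δ ≤ δ₃ := (min_le_right _ _).trans (min_le_left _ _)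
      have d4 : δ ≤ c := (min_le_right _ _).trans (min_le_right _ _)
      have hΦ : ∀ k, Fol Sy.g (φ (n * k)) := fun k => ⟨fun x y => by
        rw [hg, Pool.Agent.TH289.WS_iter_iff _ hn1, Pool.Agent.TH289.WS_iter_iff _ hn1,
          ← Pool.Agent.TH289.asym_iff, ← Pool.Agent.TH289.asym_iff]
        exact hφs _ x y, fun x y => by
        rw [hg, hsym, Pool.Agent.TH289.WS_iter_iff _ hn1, Pool.Agent.TH289.WS_iter_iff _ hn1,
          ← Pool.Agent.TH289.asym_iff, ← Pool.Agent.TH289.asym_iff]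
        exact hφu _ x y⟩
      refine udist_frames (Φ := fun k => φ (n * k)) hLP hX hΦ d0 d4 (s := s * n) (S := S * n)
        (U := U * n) hsn han hε₀ ?_ ?_ (R1 δ d0 d1) R2 (R3 δ d0 d2) ?_
      · have : a / n * (S * n - s * n) = a * (S - s) := by field_simp
        rw [this]; exact h5
      · have : a / n * (U * n) = a * U := by field_simp
        rw [this]; exact h6
      · have e : (fun (k : ℕ) (x : M) => Sy.g^[k] (φ (n * k) x)) =
            fun k => (fun (k : ℕ) (x : M) => f.toHomeomorph^[k] (φ k x)) (n * k) := by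
          funext k x
          show Sy.g^[k] (φ (n * k) x) = f.toHomeomorph^[n * k] (φ (n * k) x)
          rw [hg]
          exact iterHomeo_iter f.toHomeomorph n k _
        rw [e]
        exact R4 δ d0 d3
  obtain ⟨br, δb, η, ε₂, ε₁, ρ, A, K, hρ, HF⟩ := fin
  have hall : ∀ a s, WS Sy.g a s → Lf Sy.g a s :=
    lf_of_HU hLP hX hρ fun N => (HF N).imp fun n hn => hn.2
  have : ProperSpace E := FiniteDimensional.proper_real E
  obtain ⟨a1, a2, q₀, hq₀⟩ := abs_main (E' := E) Qsx.main Sy hLP hall hn1 hg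
  obtain ⟨c₁, hc₁, hsl⟩ := Pool.Agent.Y330.H.exists_sl hLP
  have hex := ex_of_lf hLP hc₁ hsl hall
  have hpg := growth_of_HU hLP hX hex hρ A K HF
  have hgi : ∀ x, Sy.g x = f^[n] x := fun x => by rw [hg]; rfl
  refine ⟨conclude f hgi a1, fun x => ?_, a2, ⟨q₀, hq₀, covering_surj hq₀⟩, hpg⟩
  rw [Metric.mem_closure_iff]
  intro ε hε
  obtain ⟨y, N, hN1, hy, hd⟩ := Pool.Agent.H779R2.An.periodic_dense Sy a1 x ε hε
  refine ⟨y, ⟨n * N, Nat.mul_pos hn1 hN1, ?_⟩, by rwa [dist_comm]⟩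
  rw [Function.IsPeriodicPt, Function.IsFixedPt]
  have h3 : Sy.g^[N] = f^[n * N] := by
    rw [Function.iterate_mul]
    congr 1
    funext x
    exact hgi x
  rw [← h3]
  exact hy

end manifold

end Pool.Agent.T9h69.CU
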