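import Pool.Agent.T9h69.CU.Wd

set_option autoImplicit false
set_option linter.unusedSectionVars false

/-! Sliding an unstable path along a stable chain, with control by the length of words. -/

open Filter Topology Set Metric unitInterval

namespace Pool.Agent.T9h69.CU

open Pool.Agent.H789R2.AN Pool.Agent.H789R2.GP Pool.Agent.N234.CP Pool.Agent.Y330.J
open Pool.Agent.T9h69.CF Pool.Agent.T9h69.CG

variable {X : Type*} [MetricSpace X] [CompactSpace X] {g : X ≃ₜ X} {c : ℝ}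

/-- The constants and the frames: `φ` is the bottom frame, `ψ` the top frame. -/
structure UFrm (g : X ≃ₜ X) (c : ℝ) (br : X → X → X) (δb η ε₂ δ₁ ρ ε₀ : ℝ) (φ ψ : X ≃ₜ X)
    (P Lm W : ℕ) : Prop where
  hb : BrP g c br δb
  hε₂ : 3 * ε₂ ≤ c
  h12 : δ₁ ≤ ε₂
  hρ0 : 0 < ρ
  hρδ : ρ ≤ δ₁
  hε₀ : 0 < ε₀
  hη : η ≤ δb
  hρη : ρ + δ₁ < η
  b2 : ∀ x y, dist x y < η → SR g ε₂ x (br x y) ∧ SR g.symm ε₂ y (br x y)
  gap : ∀ x y, SR g c x y → dist x y ≤ 3 * ρ → SR g δ₁ x y
  sq : Sq g ε₂ φ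
  fφ : Fol g φ
  fψ : Fol g ψ
  UD : ∀ (x y : X) (v : Path.Homotopic.Quotient x y), Scl g.symm v → Wd ψ ε₀ P v →
    SR g.symm ρ (φ x) (φ y)
  SW : ∀ i ≤ Lm, ∀ (x y : X) (s : Path.Homotopic.Quotient x y), Steps g δ₁ i (φ x) (φ y) →
    Scl g s → Wd ψ ε₀ W s
  S1 : ∀ (x y : X) (s : Path.Homotopic.Quotient x y), SR g ε₂ (φ x) (φ y) → Scl g s →
    Wd ψ ε₀ 1 s

/-- an unstable class with at most `j` pieces in the frame `ψ` -/
def Uc (g ψ : X ≃ₜ X) (ε₀ : ℝ) (j : ℕ) (x y : X) : Prop :=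
  ∃ u : Path.Homotopic.Quotient x y, Scl g.symm u ∧ Wd ψ ε₀ j u

theorem Uc.trans {ψ : X ≃ₜ X} {ε₀ : ℝ} {j j' : ℕ} {x y z : X} (h : Uc g ψ ε₀ j x y)
    (h' : Uc g ψ ε₀ j' y z) : Uc g ψ ε₀ (j + j') x z := by
  obtain ⟨u, h1, h2⟩ := h
  obtain ⟨v, h3, h4⟩ := h'
  exact ⟨u.trans v, h1.trans h3, h2.trans h4⟩

theorem Uc.mono {ψ : X ≃ₜ X} {ε₀ : ℝ} (hε : 0 < ε₀) {j j' : ℕ} {x y : X} (h : Uc g ψ ε₀ j x y)
    (hj : j ≤ j') : Uc g ψ ε₀ j' x y := by
  obtain ⟨u, h1, h2⟩ := h
  exact ⟨u, h1, h2.mono hε hj⟩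

theorem Uc.refl {ψ : X ≃ₜ X} {ε₀ : ℝ} (hε : 0 < ε₀) (x : X) : Uc g ψ ε₀ 1 x x :=
  ⟨_, Scl.refl g.symm x, Wd.refl ψ hε x⟩

theorem slideU (hg : LP g c) (hX : ULC X) {br : X → X → X} {δb η ε₂ δ₁ ρ ε₀ : ℝ}
    {φ ψ : X ≃ₜ X} {P Lm W : ℕ} (F : UFrm g c br δb η ε₂ δ₁ ρ ε₀ φ ψ P Lm W)
    {p b b' : ℕ → X} {L j K : ℕ} (hL : L ≤ Lm) (hP : j + (2 * W + K + 1) ≤ P)
    (hp : ∀ l < L, SR g δ₁ (φ (p l)) (φ (p (l + 1))))
    (hbb : ∀ l < L, SR g ρ (φ (b l)) (φ (b' l)))
    (h1 : ∀ l < L, Uc g ψ ε₀ j (b l) (p l))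
    (h2 : ∀ l < L, Uc g ψ ε₀ j (b' l) (p (l + 1)))
    {w : X} {υ : Path.Homotopic.Quotient (p L) w} (hυ : Scl g.symm υ) (hυ' : Wd ψ ε₀ K υ) :
    ∃ q : ℕ → X, q L = w ∧ (∀ l < L, SR g δ₁ (φ (q l)) (φ (q (l + 1)))) ∧
      ∀ l ≤ L, ∃ v : Path.Homotopic.Quotient (p l) (q l), Scl g.symm v ∧
        Wd ψ ε₀ (2 * W + K + 1) v ∧
        ∀ (s : Path.Homotopic.Quotient (p l) (p L)) (s' : Path.Homotopic.Quotient (q l) w),
          Scl g s → Scl g s' → s.trans υ = v.trans s' := by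
  have hc := hg.c_pos
  have hε₀ := F.hε₀
  have hε₂ := F.hε₂
  have h12 := F.h12
  have hρ0 := F.hρ0
  have hρδ := F.hρδ
  have hρη := F.hρη
  set K' := 2 * W + K + 1 with hK'
  -- the new chain, from its end
  let r : ℕ → X := fun d => Nat.rec w (fun d y => φ.symm (br (φ y) (φ (p (L - (d + 1)))))) d
  have r0 : r 0 = w := rfl
  have rs : ∀ d, r (d + 1) = φ.symm (br (φ (r d)) (φ (p (L - (d + 1))))) := fun d => rfl
  have rs' : ∀ d, φ (r (d + 1)) = br (φ (r d)) (φ (p (L - (d + 1)))) := fun d => by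
    rw [rs, φ.apply_symm_apply]
  have hchain : ∀ d ≤ L, Steps g δ₁ d (φ (p (L - d))) (φ (p L)) := fun d hd =>
    ⟨fun t => φ (p (L - d + t)), by simp, by
      show φ (p (L - d + d)) = _
      rw [Nat.sub_add_cancel hd], fun t ht => by
      have := hp (L - d + t) (by omega)
      rwa [Nat.add_assoc] at this⟩
  have hpL : ∀ d ≤ L, WS g (p (L - d)) (p L) := fun d hd =>
    (F.fφ.s _ _).1 ((hchain d hd).ws hg (by linarith))
  -- the induction
  have main : ∀ d ≤ L, (∀ e < d, SR g δ₁ (φ (r (e + 1))) (φ (r e))) ∧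
      ∃ v : Path.Homotopic.Quotient (p (L - d)) (r d), Scl g.symm v ∧ Wd ψ ε₀ K' v ∧
        ∀ (s : Path.Homotopic.Quotient (p (L - d)) (p L)) (s' : Path.Homotopic.Quotient (r d) w),
          Scl g s → Scl g s' → s.trans υ = v.trans s' := by
    intro d
    induction d with
    | zero =>
      intro _
      refine ⟨fun e he => absurd he (Nat.not_lt_zero e), υ, hυ, hυ'.mono hε₀ (by omega), ?_⟩
      intro s s' hs hs'
      rw [hs.unique hX (Scl.refl g _), hs'.unique hX (Scl.refl g _),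
        Path.Homotopic.Quotient.refl_trans, Path.Homotopic.Quotient.trans_refl]
    | succ d ih =>
      intro hd
      obtain ⟨ih1, ihv⟩ := ih (by omega)
      obtain ⟨l, hl⟩ : ∃ l, l = L - (d + 1) := ⟨_, rfl⟩
      have hl1 : L - d = l + 1 := by omega
      have hlL : l < L := by omega
      rw [← hl]
      rw [hl1] at ihv
      obtain ⟨v, hv, hvW, hvi⟩ := ihv
      have e1 : φ (r (d + 1)) = br (φ (r d)) (φ (p l)) := by rw [rs', hl]
      -- closeness in the bottom frame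
      have c1 : SR g.symm ρ (φ (p (l + 1))) (φ (r d)) :=
        F.UD _ _ v hv (hvW.mono hε₀ (by omega))
      have c2 : dist (φ (r d)) (φ (p l)) < η := by
        have a1 : dist (φ (p (l + 1))) (φ (r d)) ≤ ρ := c1 0
        have a2 : dist (φ (p l)) (φ (p (l + 1))) ≤ δ₁ := hp l hlL 0
        have a3 := dist_triangle_left (φ (r d)) (φ (p l)) (φ (p (l + 1)))
        rw [dist_comm (φ (p l))] at a2
        linarith
      obtain ⟨c3, c4⟩ := F.b2 _ _ c2
      rw [← e1] at c3 c4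
      -- classes
      have w1 : WS g.symm (p l) (r (d + 1)) :=
        (F.fφ.u _ _).1 (WS.of_SR (hg.cU _ _ (c4.mono (by linarith))))
      have w2 : WS g (r (d + 1)) (r d) :=
        (F.fφ.s _ _).1 (WS.of_SR (hg.cS _ _ (c3.mono (by linarith)))).symm'
      have w3 : WS g (p l) (p (l + 1)) :=
        (F.fφ.s _ _).1 (WS.of_SR (hg.cS _ _ ((hp l hlL).mono (by linarith))))
      have w4 : WS g (p (l + 1)) (p L) := by
        have := hpL d (by omega)
        rwa [hl1] at this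
      have w5 : ∀ e ≤ d, WS g (r e) w := by
        intro e
        induction e with
        | zero => intro _; exact WS.refl g w
        | succ e ihe =>
          intro he
          exact (WS.trans ((F.fφ.s _ _).1 (WS.of_SR (hg.cS _ _ ((ih1 e (by omega)).mono
            (by linarith)))))) (ihe (by omega))
      have w5 := w5 d le_rfl
      obtain ⟨v', hv'⟩ := exists_scl hg.symm hX w1
      obtain ⟨t', ht'⟩ := exists_scl hg hX w2
      obtain ⟨t, ht⟩ := exists_scl hg hX w3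
      obtain ⟨s₁, hs₁⟩ := exists_scl hg hX w4
      obtain ⟨s₁', hs₁'⟩ := exists_scl hg hX w5
      have b1 := hvi s₁ s₁' hs₁ hs₁'
      have b2 : t.trans v = v'.trans t' := F.sq ht hv hv' ht' ((hp l hlL).mono h12)
        (c1.mono (by linarith)) c4 c3.symm'
      have ident : ∀ (s : Path.Homotopic.Quotient (p l) (p L))
          (s' : Path.Homotopic.Quotient (r (d + 1)) w), Scl g s → Scl g s' →
          s.trans υ = v'.trans s' := by
        intro s s' hs hs'
        rw [hs.unique hX (ht.trans hs₁), hs'.unique hX (ht'.trans hs₁'),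
          Path.Homotopic.Quotient.trans_assoc, b1, ← Path.Homotopic.Quotient.trans_assoc, b2,
          Path.Homotopic.Quotient.trans_assoc]
      -- the length of the new unstable class
      have hv'W : Wd ψ ε₀ K' v' := by
        have i1 := ident (t.trans s₁) (t'.trans s₁') (ht.trans hs₁) (ht'.trans hs₁')
        have i2 : v' = ((t.trans s₁).trans υ).trans (t'.trans s₁').symm := by
          rw [i1, Path.Homotopic.Quotient.trans_assoc, Path.Homotopic.Quotient.trans_symm,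
            Path.Homotopic.Quotient.trans_refl]
        have l1 : Wd ψ ε₀ W (t.trans s₁) := by
          refine F.SW (d + 1) (by omega) _ _ _ ?_ (ht.trans hs₁)
          have := hchain (d + 1) hd
          rwa [← hl] at this
        have l2 : Wd ψ ε₀ W s₁' := by
          refine F.SW d (by omega) _ _ _ ⟨fun e => φ (r (d - e)), by simp, by simp [r0],
            fun e he => ?_⟩ hs₁'
          have := ih1 (d - (e + 1)) (by omega)
          rwa [show d - (e + 1) + 1 = d - e by omega] at this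
        have l3 : Wd ψ ε₀ 1 t' := F.S1 _ _ _ c3.symm' ht'
        rw [i2]
        refine (((l1.trans hυ').trans (l3.trans l2).symm').mono hε₀ ?_)
        omega
      refine ⟨fun e he => ?_, v', hv', hv'W, ident⟩
      rcases Nat.lt_or_ge e d with he' | he'
      · exact ih1 e he'
      · obtain rfl : e = d := by omega
        apply F.gap _ _ (c3.symm'.mono (by linarith))
        have k1 : dist (φ (b l)) (φ (r (e + 1))) ≤ ρ := by
          obtain ⟨u, u1, u2⟩ := (h1 l hlL).trans ⟨v', hv', hv'W⟩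
          exact F.UD _ _ u u1 (u2.mono hε₀ hP) 0
        have k2 : dist (φ (b' l)) (φ (r e)) ≤ ρ := by
          obtain ⟨u, u1, u2⟩ := (h2 l hlL).trans ⟨v, hv, hvW⟩
          exact F.UD _ _ u u1 (u2.mono hε₀ hP) 0
        have k3 : dist (φ (b l)) (φ (b' l)) ≤ ρ := hbb l hlL 0
        have k4 := dist_triangle4 (φ (r (e + 1))) (φ (b l)) (φ (b' l)) (φ (r e))
        rw [dist_comm (φ (r (e + 1))) (φ (b l))] at k4
        linarith
  refine ⟨fun l => r (L - l), by simp [r0], fun l hl => ?_, fun l hl => ?_⟩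
  · have := (main L le_rfl).1 (L - (l + 1)) (by omega)
    rwa [show L - (l + 1) + 1 = L - l by omega] at this
  · have := (main (L - l) (by omega)).2
    rwa [show L - (L - l) = l by omega] at this

end Pool.Agent.T9h69.CU
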