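import Pool.Agent.T9h69.CG.Row

set_option autoImplicit false
set_option linter.unusedSectionVars false

/-! Paths divided into small pieces. -/

open Filter Topology Set Metric unitInterval

namespace Pool.Agent.T9h69.CU

open Pool.Agent.H789R2.AN Pool.Agent.H789R2.GP Pool.Agent.N234.CP Pool.Agent.Y330.J
open Pool.Agent.T9h69.CF Pool.Agent.T9h69.CG

/-- The path `κ` can be divided into `N` consecutive pieces, each of which is `𝒰`-small. -/
def Pieces {M : Type*} (𝒰 : Set (M × M)) (N : ℕ) (κ : I → M) : Prop :=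
  ∃ t : ℕ → I, Monotone t ∧ t 0 = 0 ∧ t N = 1 ∧
    ∀ i < N, ∀ r ∈ Icc (t i) (t (i + 1)), ∀ r' ∈ Icc (t i) (t (i + 1)), (κ r, κ r') ∈ 𝒰

theorem Pieces.sub {M M' : Type*} {𝒰 : Set (M × M)} {𝒱 : Set (M' × M')} {N : ℕ} {κ : I → M}
    {τ : I → M'} (h : Pieces 𝒰 N κ) (h' : ∀ r r', (κ r, κ r') ∈ 𝒰 → (τ r, τ r') ∈ 𝒱) :
    Pieces 𝒱 N τ := by
  obtain ⟨t, h1, h2, h3, h4⟩ := h
  exact ⟨t, h1, h2, h3, fun i hi r hr r' hr' => h' _ _ (h4 i hi r hr r' hr')⟩

theorem Pieces.mono {M : Type*} {𝒰 : Set (M × M)} (hU : ∀ x, (x, x) ∈ 𝒰) {N N' : ℕ} {κ : I → M}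
    (h : Pieces 𝒰 N κ) (hN : N ≤ N') : Pieces 𝒰 N' κ := by
  obtain ⟨t, h1, h2, h3, h4⟩ := h
  have e : ∀ i, N ≤ i → t i = 1 := fun i hi =>
    le_antisymm unitInterval.le_one' (by rw [← h3]; exact h1 hi)
  refine ⟨t, h1, h2, e N' hN, fun i hi r hr r' hr' => ?_⟩
  rcases Nat.lt_or_ge i N with h5 | h5
  · exact h4 i h5 r hr r' hr'
  · rw [e i h5, e (i + 1) (by omega), Icc_self, mem_singleton_iff] at hr hr'
    rw [hr, hr']
    exact hU _

theorem Pieces.one {M : Type*} {𝒰 : Set (M × M)} {κ : I → M} (h : ∀ r r', (κ r, κ r') ∈ 𝒰) :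
    Pieces 𝒰 1 κ := by
  refine ⟨fun i => if i = 0 then 0 else 1, ?_, by simp, by simp, fun i _ r _ r' _ => h r r'⟩
  intro i j hij
  beta_reduce
  split_ifs with h1 h2
  · exact le_rfl
  · exact unitInterval.nonneg'
  · omega
  · exact le_rfl

theorem Pieces.symm {X : Type*} [TopologicalSpace X] {𝒰 : Set (X × X)} {N : ℕ} {x y : X}
    {κ : Path x y} (h : Pieces 𝒰 N κ) : Pieces 𝒰 N κ.symm := by
  obtain ⟨t, h1, h2, h3, h4⟩ := h
  refine ⟨fun i => unitInterval.symm (t (N - i)), ?_, ?_, ?_, fun i hi r hr r' hr' => ?_⟩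
  · intro i j hij
    exact unitInterval.symm_le_symm.2 (h1 (by omega))
  · simp [h3]
  · simp [h2]
  · have key : ∀ r ∈ Icc (unitInterval.symm (t (N - i))) (unitInterval.symm (t (N - (i + 1)))),
        unitInterval.symm r ∈ Icc (t (N - (i + 1))) (t (N - (i + 1) + 1)) := by
      rintro r ⟨a1, a2⟩
      have e : N - (i + 1) + 1 = N - i := by omega
      rw [e]
      refine ⟨?_, ?_⟩
      · rw [← unitInterval.symm_symm (t (N - (i + 1)))]
        exact unitInterval.symm_le_symm.2 a2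
      · rw [← unitInterval.symm_symm (t (N - i))]
        exact unitInterval.symm_le_symm.2 a1
    exact h4 (N - (i + 1)) (by omega) _ (key r hr) _ (key r' hr')

theorem Pieces.trans {X : Type*} [TopologicalSpace X] {𝒰 : Set (X × X)} {N N' : ℕ} {x y z : X}
    {κ : Path x y} {τ : Path y z} (h : Pieces 𝒰 N κ) (h' : Pieces 𝒰 N' τ) :
    Pieces 𝒰 (N + N') (κ.trans τ) := by
  obtain ⟨t, h1, h2, h3, h4⟩ := h
  obtain ⟨t', h1', h2', h3', h4'⟩ := h'
  set T : ℕ → I := fun i => if i ≤ N then ⟨(t i : ℝ) / 2, by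
    have := (t i).2
    constructor <;> linarith [this.1, this.2]⟩ else ⟨(1 + (t' (i - N) : ℝ)) / 2, by
    have := (t' (i - N)).2
    constructor <;> linarith [this.1, this.2]⟩ with hT
  have T1 : ∀ i ≤ N, (T i : ℝ) = (t i : ℝ) / 2 := fun i hi => by
    rw [hT]; simp only [if_pos hi]
  have T2 : ∀ i, N ≤ i → (T i : ℝ) = (1 + (t' (i - N) : ℝ)) / 2 := fun i hi => by
    rcases eq_or_lt_of_le hi with rfl | hi'
    · rw [T1 _ le_rfl, h3, Nat.sub_self, h2']
      norm_num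
    · rw [hT]; simp only [if_neg (not_le.2 hi')]
  refine ⟨T, ?_, ?_, ?_, fun i hi r hr r' hr' => ?_⟩
  · intro i j hij
    rw [← Subtype.coe_le_coe]
    rcases le_total j N with hj | hj
    · rw [T1 i (hij.trans hj), T1 j hj]
      have : (t i : ℝ) ≤ t j := h1 hij
      linarith
    · rcases le_total i N with hi | hi
      · rw [T1 i hi, T2 j hj]
        have a1 := (t i).2.2
        have a2 := (t' (j - N)).2.1
        linarith
      · rw [T2 i hi, T2 j hj]
        have : (t' (i - N) : ℝ) ≤ t' (j - N) := h1' (by omega)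
        linarith
  · apply Subtype.ext
    rw [T1 0 (Nat.zero_le _), h2]
    simp
  · apply Subtype.ext
    rw [T2 _ (Nat.le_add_right _ _), Nat.add_sub_cancel_left, h3']
    norm_num
  · rcases Nat.lt_or_ge i N with hiN | hiN
    · have key : ∀ r ∈ Icc (T i) (T (i + 1)), ∃ r₁ ∈ Icc (t i) (t (i + 1)),
          (κ.trans τ) r = κ r₁ := by
        rintro r ⟨a1, a2⟩
        have b1 : (T i : ℝ) ≤ r := a1
        have b2 : (r : ℝ) ≤ T (i + 1) := a2
        rw [T1 i hiN.le] at b1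
        rw [T1 (i + 1) hiN] at b2
        have b3 := (t (i + 1)).2.2
        have b4 := (t i).2.1
        refine ⟨⟨2 * r, by constructor <;> linarith⟩, ⟨?_, ?_⟩, ?_⟩
        · rw [← Subtype.coe_le_coe]; show (t i : ℝ) ≤ 2 * r; linarith
        · rw [← Subtype.coe_le_coe]; show 2 * (r : ℝ) ≤ t (i + 1); linarith
        · rw [Path.trans_apply, dif_pos (by linarith)]
      obtain ⟨r₁, c1, c2⟩ := key r hr
      obtain ⟨r₂, c3, c4⟩ := key r' hr'
      rw [c2, c4]
      exact h4 i hiN _ c1 _ c3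
    · have key : ∀ r ∈ Icc (T i) (T (i + 1)), ∃ r₁ ∈ Icc (t' (i - N)) (t' (i - N + 1)),
          (κ.trans τ) r = τ r₁ := by
        rintro r ⟨a1, a2⟩
        have b1 : (T i : ℝ) ≤ r := a1
        have b2 : (r : ℝ) ≤ T (i + 1) := a2
        rw [T2 i hiN] at b1
        rw [T2 (i + 1) (by omega)] at b2
        have e : i + 1 - N = i - N + 1 := by omega
        rw [e] at b2
        have b3 := (t' (i - N + 1)).2.2
        have b4 := (t' (i - N)).2.1
        refine ⟨⟨2 * r - 1, by constructor <;> linarith⟩, ⟨?_, ?_⟩, ?_⟩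
        · rw [← Subtype.coe_le_coe]; show (t' (i - N) : ℝ) ≤ 2 * r - 1; linarith
        · rw [← Subtype.coe_le_coe]; show 2 * (r : ℝ) - 1 ≤ t' (i - N + 1); linarith
        · rw [Path.trans_apply]
          split_ifs with h5
          · have h6 : (r : ℝ) = 1 / 2 := by linarith
            have e1 : (⟨2 * r, (mul_pos_mem_iff zero_lt_two).2 ⟨r.2.1, h5⟩⟩ : I) = 1 := by
              apply Subtype.ext; show 2 * (r : ℝ) = 1; linarith
            have e2 : (⟨2 * r - 1, by constructor <;> linarith⟩ : I) = 0 := by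
              apply Subtype.ext; show 2 * (r : ℝ) - 1 = 0; linarith
            rw [e1, e2, κ.target, τ.source]
          · rfl
      obtain ⟨r₁, c1, c2⟩ := key r hr
      obtain ⟨r₂, c3, c4⟩ := key r' hr'
      rw [c2, c4]
      exact h4' (i - N) (by omega) _ c1 _ c3

variable {X : Type*} [MetricSpace X] [CompactSpace X] {g : X ≃ₜ X} {c : ℝ}

/-- the class is represented by a path with `P` pieces which are small in the frame `ψ` -/
def Wd (ψ : X ≃ₜ X) (ε : ℝ) (P : ℕ) {x y : X} (α : Path.Homotopic.Quotient x y) : Prop :=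
  ∃ κ : Path x y, cl κ = α ∧ Pieces {p : X × X | dist p.1 p.2 < ε} P (fun r => ψ (κ r))

theorem Wd.mono {ψ : X ≃ₜ X} {ε : ℝ} (hε : 0 < ε) {P P' : ℕ} {x y : X}
    {α : Path.Homotopic.Quotient x y} (h : Wd ψ ε P α) (hP : P ≤ P') : Wd ψ ε P' α := by
  obtain ⟨κ, h1, h2⟩ := h
  exact ⟨κ, h1, h2.mono (fun x => by simpa using hε) hP⟩

theorem Wd.trans {ψ : X ≃ₜ X} {ε : ℝ} {P P' : ℕ} {x y z : X}
    {α : Path.Homotopic.Quotient x y} {β : Path.Homotopic.Quotient y z} (h : Wd ψ ε P α)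
    (h' : Wd ψ ε P' β) : Wd ψ ε (P + P') (α.trans β) := by
  obtain ⟨κ, rfl, h2⟩ := h
  obtain ⟨τ, rfl, h4⟩ := h'
  refine ⟨κ.trans τ, cl_trans κ τ, ?_⟩
  have h5 : Pieces {p : X × X | dist (ψ p.1) (ψ p.2) < ε} P κ := h2.sub fun r r' h => h
  have h6 : Pieces {p : X × X | dist (ψ p.1) (ψ p.2) < ε} P' τ := h4.sub fun r r' h => h
  exact (h5.trans h6).sub fun r r' h => h

theorem Wd.symm' {ψ : X ≃ₜ X} {ε : ℝ} {P : ℕ} {x y : X}
    {α : Path.Homotopic.Quotient x y} (h : Wd ψ ε P α) : Wd ψ ε P α.symm := by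
  obtain ⟨κ, rfl, h2⟩ := h
  refine ⟨κ.symm, cl_symm κ, ?_⟩
  have h5 : Pieces {p : X × X | dist (ψ p.1) (ψ p.2) < ε} P κ := h2.sub fun r r' h => h
  exact h5.symm.sub fun r r' h => h

theorem Wd.one {ψ : X ≃ₜ X} {ε : ℝ} {x y : X} (κ : Path x y)
    (h : ∀ r, dist (ψ x) (ψ (κ r)) < ε / 2) : Wd ψ ε 1 (cl κ) := by
  refine ⟨κ, rfl, Pieces.one fun r r' => ?_⟩
  have h1 := h r
  have h2 := h r'
  have h3 := dist_triangle_left (ψ (κ r)) (ψ (κ r')) (ψ x)
  show dist (ψ (κ r)) (ψ (κ r')) < ε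
  linarith

theorem Wd.refl (ψ : X ≃ₜ X) {ε : ℝ} (hε : 0 < ε) (x : X) :
    Wd ψ ε 1 (Path.Homotopic.Quotient.refl x) := by
  have := Wd.one (ψ := ψ) (ε := ε) (Path.refl x) fun r => by simpa using hε
  exact this

/-- the class of a chain of small stable steps in the frame `ψ` -/
theorem exists_wd (hg : LP g c) (hX : ULC X) {ε : ℝ} (hε : 0 < ε) : ∃ η > 0, ∀ ψ : X ≃ₜ X,
    Fol g ψ → ∀ (N : ℕ) (x y : X) (s : Path.Homotopic.Quotient x y),
      Steps g η N (ψ x) (ψ y) → Scl g s → Wd ψ ε (N + 1) s := by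
  obtain ⟨η₁, hη₁, h1⟩ := small_pathF hg hX (ε := ε / 3) (by positivity)
  have hc := hg.c_pos
  refine ⟨min η₁ c, lt_min hη₁ hc, fun ψ hψ N x y s hst hs => ?_⟩
  obtain ⟨z, z0, zN, hz⟩ := hst
  have hd : ∀ i, ψ (ψ.symm (z i)) = z i := fun i => ψ.apply_symm_apply _
  have key : ∀ i ≤ N, ∀ s' : Path.Homotopic.Quotient x (ψ.symm (z i)), Scl g s' →
      Wd ψ ε (i + 1) s' := by
    intro i
    induction i with
    | zero =>
      intro _
      have e : ψ.symm (z 0) = x := by rw [z0, ψ.symm_apply_apply]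
      rw [e]
      intro s' hs'
      rw [hs'.unique hX (Scl.refl g x)]
      exact Wd.refl ψ hε x
    | succ i ih =>
      intro hi s' hs'
      have a1 : SR g (min η₁ c) (ψ (ψ.symm (z i))) (ψ (ψ.symm (z (i + 1)))) := by
        rw [hd, hd]
        exact hz i (by omega)
      obtain ⟨p, p1, p2⟩ := h1 ψ hψ _ _ (a1.mono (min_le_left _ _))
      have w2 : WS g x (ψ.symm (z i)) := by
        apply (hψ.s _ _).1
        rw [hd, ← z0]
        exact (Steps.of_chain hz (by omega)).ws hg (min_le_right _ _)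
      obtain ⟨s₁, hs₁⟩ := exists_scl hg hX w2
      rw [hs'.unique hX (hs₁.trans ⟨p, p1, rfl⟩)]
      exact (ih (by omega) s₁ hs₁).trans (Wd.one p fun r => by
        have := p2 r
        linarith)
  have h2 := key N le_rfl
  have e : ψ.symm (z N) = y := by rw [zN, ψ.symm_apply_apply]
  rw [e] at h2
  exact h2 s hs

end Pool.Agent.T9h69.CU
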